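import Pool.Agent.Q234.StQ
import Pool.Agent.Q234.TQ
import Pool.Agent.Q234.TD

/-!
# Every large even `n`: the three conditions with almost all shifts

Q1 asks for every `n ≥ 32` for `k` such that `q = φ(k) + φ(n - k) / 2 + 1`, `p_q - q - 1` and `p_q - q + 1` are primes.
For EVERY large even `n` the numbers `v = φ(k) + φ(n - k) / 2 + 1`, `1 ≤ k < n - 2`, take at least `n / (log n) ^ 9`
different values (Chen's theorem: `k = p` a prime, `n - p` a prime or a product of two primes `b`, `l`; in the last case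
`(b + 1) (l + 1) = 2 n + 2 - 2 v`). Consequently `q = v + h₀` is prime for the expected number of these values for
almost all shifts `h₀` in every class, and then `p_q - q - 1 + h₁` and `p_q - q + 1 + h₂` are both prime for the
expected number of these primes `q` for almost all pairs `(h₁, h₂)` in every pair of classes.
-/

set_option autoImplicit false

open Finset

namespace Pool.Agent.Results.MP_61a569_nt.EveryEven

/-- The `k`-th prime: `p 1 = 2`, `p 2 = 3`. -/
noncomputable def p (k : ℕ) : ℕ := Nat.nth Nat.Prime (k - 1)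

/-- The product of `1 - 1/q` over the primes `q ≤ y`. -/
noncomputable def V (y : ℕ) : ℝ := ∏ q ∈ (Icc 1 y).filter Nat.Prime, (1 - 1 / (q : ℝ))

/-- The different values of `φ(k) + φ(n - k) / 2 + 1`, `1 ≤ k < n - 2`. -/
noncomputable def D (n : ℕ) : Finset ℕ :=
  (Ioo 0 (n - 2)).image (fun k => Nat.totient k + Nat.totient (n - k) / 2 + 1)

open Classical in
/-- The values `v` in `D n` for which `v + b₀` is prime to `M`. -/
noncomputable def loc₀ (n M b₀ : ℕ) : Finset ℕ := (D n).filter (fun v => (v + b₀).Coprime M)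

/-- The primes of the form `v + h₀` with `v` in `D n`. -/
noncomputable def Q (n h₀ : ℕ) : Finset ℕ := ((D n).image (fun v => v + h₀)).filter Nat.Prime

open Classical in
/-- The `q` in `Q n h₀` for which `p_q - q - 1 + b 0` and `p_q - q + 1 + b 1` are prime to `M`. -/
noncomputable def loc (n h₀ M : ℕ) (b : Fin 2 → ℕ) : Finset ℕ :=
  (Q n h₀).filter (fun q => (p q - q - 1 + b 0).Coprime M ∧ (p q - q + 1 + b 1).Coprime M)

open Classical in
/-- The `q` in `Q n h₀` for which `p_q - q - 1 + h 0` and `p_q - q + 1 + h 1` are prime. -/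
noncomputable def good (n h₀ : ℕ) (h : Fin 2 → ℕ) : Finset ℕ :=
  (Q n h₀).filter (fun q => (p q - q - 1 + h 0).Prime ∧ (p q - q + 1 + h 1).Prime)

/-- the two sequences -/
noncomputable def F (b : Fin 2 → ℕ) : Fin 2 → ℕ → ℕ := ![fun q => p q - q - 1 + b 0, fun q => p q - q + 1 + b 1]

theorem F_inj (b : Fin 2 → ℕ) (i : Fin 2) (J : Finset ℕ) (hJ : ∀ q ∈ J, 2 ≤ q) : Set.InjOn (F b i) J := by
  intro a ha c hc hac
  rw [mem_coe] at ha hc
  have h1 := hJ a ha
  have h2 := hJ c hc
  have h3 := Nat.add_two_le_nth_prime (a - 1)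
  have h4 := Nat.add_two_le_nth_prime (c - 1)
  apply Pool.Agent.Q234.TQ.p_sub_inj h1 h2
  fin_cases i
  · have h5 : p a - a - 1 + b 0 = p c - c - 1 + b 0 := hac
    unfold p at h5
    omega
  · have h5 : p a - a + 1 + b 1 = p c - c + 1 + b 1 := hac
    unfold p at h5
    omega

theorem D_le {n v : ℕ} (h : v ∈ D n) : v ≤ n + 1 := by
  unfold D at h
  rw [mem_image] at h
  obtain ⟨k, hk, rfl⟩ := h
  rw [mem_Ioo] at hk
  have h1 := Nat.totient_le k
  have h2 := Nat.totient_le (n - k)
  omega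

theorem cop {y v : ℕ} (hy : 2 ≤ y) (hv : v.Coprime (primorial y)) : 1 ≤ v ∧ ∀ l : ℕ, l.Prime → l ≤ y → ¬ l ∣ v := by
  have h2 : ∀ l : ℕ, l.Prime → l ≤ y → ¬ l ∣ v := by
    intro l hl hly hd
    have h3 := Nat.dvd_gcd hd (hl.dvd_primorial_iff.2 hly)
    rw [Nat.coprime_iff_gcd_eq_one.1 hv] at h3
    exact hl.one_lt.ne' (Nat.dvd_one.1 h3)
  refine ⟨?_, h2⟩
  by_contra h0
  exact h2 2 Nat.prime_two hy (by
    have : v = 0 := by omega
    rw [this]
    exact dvd_zero 2)

/-- (1) For every large even `n` the set `D n` has at least `n / (log n) ^ 9` elements. (2) For all `A`, `C` and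
`0 < ε ≤ 1` there is `K₀` such that for every `K₁`, every large even `n`, every `y` between `K₀ log log n` and
`K₁ log log n`, with `M` the product of the primes `≤ y`, every `b₀ ≤ n` such that `loc₀ n M b₀` has at least
`n / log ^ A n` elements, and every window `(g₀, g₀ + G]` with `M (g₀ + G) ≤ n`, `G ≥ n / (M log ^ C n)`, the following
holds for all but at most `ε G` of the `g ≤ G`, with `h₀ = b₀ + M (g₀ + g)`: at least `(1 - ε) #(loc₀ n M b₀) / (V y log n)`
of the numbers `v + h₀`, `v ∈ D n`, are prime, and for all `b 0, b 1 ≤ n` such that `loc n h₀ M b` has at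
least `n / log ^ A n` elements, and all windows `(g' i, g' i + G' i]` of the same kind, for all but at most
`ε (G' 0) (G' 1)` of the pairs `f`, `1 ≤ f i ≤ G' i`, with `h_i = b i + M (g' i + f i)`, for at least
`(1 - ε) #(loc n h₀ M b) / (V y log n) ^ 2` of the primes `q = v + h₀`, `v ∈ D n`, both `p_q - q - 1 + h_0` and
`p_q - q + 1 + h_1` are prime. (3) The numbers in (2) on average: for all `n`, `h₀` and `M ≥ 1` the sum of `#(loc₀ n M b₀)` over
`1 ≤ b₀ ≤ M` is `φ(M) #(D n)`, and the sum of `#(loc n h₀ M b)` over `1 ≤ b 0, b 1 ≤ M` is `φ(M)² #(Q n h₀)`. -/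
theorem result : (∃ n₀ : ℕ, ∀ n : ℕ, n₀ ≤ n → Even n → (n : ℝ) ≤ (D n).card * Real.log n ^ 9) ∧
    (∀ (A C : ℕ) (ε : ℝ), 0 < ε → ε ≤ 1 → ∃ K₀ : ℕ, ∀ K₁ : ℕ, ∃ n₀ : ℕ, ∀ n : ℕ, n₀ ≤ n → Even n →
    ∀ y : ℕ, K₀ * Real.log (Real.log n) ≤ y → y ≤ K₁ * Real.log (Real.log n) →
    ∀ b₀ : ℕ, b₀ ≤ n → (n : ℝ) ≤ (loc₀ n (primorial y) b₀).card * Real.log n ^ A →
    ∀ g₀ G : ℕ, primorial y * (g₀ + G) ≤ n → (n : ℝ) ≤ primorial y * G * Real.log n ^ C →
    ∃ E : Finset ℕ, (E.card : ℝ) ≤ ε * G ∧ ∀ g ∈ Icc 1 G, g ∉ E →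
      (1 - ε) * ((loc₀ n (primorial y) b₀).card / (V y * Real.log n)) ≤ ((Q n (b₀ + primorial y * (g₀ + g))).card : ℝ) ∧
      ∀ b g' G' : Fin 2 → ℕ, (∀ i, b i ≤ n) → (∀ i, primorial y * (g' i + G' i) ≤ n) →
      (∀ i, (n : ℝ) ≤ primorial y * G' i * Real.log n ^ C) →
      (n : ℝ) ≤ (loc n (b₀ + primorial y * (g₀ + g)) (primorial y) b).card * Real.log n ^ A →
      (((Fintype.piFinset fun i => Icc 1 (G' i)).filter (fun f =>
        ((good n (b₀ + primorial y * (g₀ + g)) (fun i => b i + primorial y * (g' i + f i))).card : ℝ) <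
        (1 - ε) * ((loc n (b₀ + primorial y * (g₀ + g)) (primorial y) b).card / (V y * Real.log n) ^ 2))).card : ℝ) ≤
        ε * (G' 0 * G' 1)) ∧
    (∀ n M : ℕ, 1 ≤ M → ∑ b₀ ∈ Icc 1 M, (loc₀ n M b₀).card = M.totient * (D n).card) ∧
    (∀ n h₀ M : ℕ, 1 ≤ M → ∑ b ∈ Fintype.piFinset (fun _ : Fin 2 => Icc 1 M), (loc n h₀ M b).card =
      M.totient ^ 2 * (Q n h₀).card) := by
  classical
  refine ⟨Pool.Agent.Q234.TD.D_card, ?_, ?_, ?_⟩
  · intro A C ε hε hε1
    obtain ⟨Ka, hKa⟩ := Pool.Agent.Q234.StQ.stepQ 4 C 2 (fun _ => 1) (fun _ => Or.inl rfl) A ε hε hε1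
    obtain ⟨Kb, hKb⟩ := Pool.Agent.Q234.StQ.oneQ 1 (Or.inl rfl) A 4 C ε hε
    refine ⟨max Ka (max Kb 2), fun K₁ => ?_⟩
    obtain ⟨n2', hn2'⟩ := hKa K₁
    obtain ⟨n5, hn5⟩ := hKb K₁
    obtain ⟨n3, hn3⟩ := Pool.Agent.H373R2.T7.ev_L' (max 6 (Real.exp 1))
    obtain ⟨n4, hn4⟩ := Pool.Agent.Y877.SX.nth_le_log
    refine ⟨max n2' (max n3 (max n4 (max n5 2))), fun n hn _ y hy1 hy2 b₀ hb₀ hloc₀ g₀ G hg1 hg2 => ?_⟩
    have b2' : n2' ≤ n := le_trans (le_max_left _ _) hn
    have b3 : n3 ≤ n := le_trans (le_trans (le_max_left _ _) (le_max_right _ _)) hn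
    have b4 : n4 ≤ n := le_trans (le_trans (le_trans (le_max_left _ _) (le_max_right _ _)) (le_max_right _ _)) hn
    have b6 : n5 ≤ n := le_trans (le_trans (le_trans (le_trans (le_max_left _ _) (le_max_right _ _)) (le_max_right _ _)) (le_max_right _ _)) hn
    have b5 : 2 ≤ n := le_trans (le_trans (le_trans (le_trans (le_max_right _ _) (le_max_right _ _)) (le_max_right _ _)) (le_max_right _ _)) hn
    have hL6 : 6 ≤ Real.log n := (le_max_left _ _).trans (hn3 n b3)
    have hLe : Real.exp 1 ≤ Real.log n := (le_max_right _ _).trans (hn3 n b3)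
    have hlL : 1 ≤ Real.log (Real.log n) := by
      rw [← Real.log_exp 1]
      exact Real.log_le_log (Real.exp_pos 1) hLe
    have hlL0 : 0 ≤ Real.log (Real.log n) := by linarith
    have hy1a : (Ka : ℝ) * Real.log (Real.log n) ≤ y :=
      le_trans (mul_le_mul_of_nonneg_right (by exact_mod_cast le_max_left _ _) hlL0) hy1
    have hy1b : (Kb : ℝ) * Real.log (Real.log n) ≤ y :=
      le_trans (mul_le_mul_of_nonneg_right (by exact_mod_cast (le_max_left _ _).trans (le_max_right _ _)) hlL0) hy1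
    have hy2a : 2 ≤ y := by
      have h1 : (2 : ℝ) ≤ y := by
        refine le_trans ?_ hy1
        have h2 : (2 : ℝ) ≤ ((max Ka (max Kb 2) : ℕ) : ℝ) := by
          exact_mod_cast (le_max_right _ _).trans (le_max_right _ _)
        nlinarith
      exact_mod_cast h1
    have hn1 : (1 : ℝ) ≤ n := by exact_mod_cast (by omega : 1 ≤ n)
    have hVe : V y = Pool.Agent.H373R2.T7.Vz y := rfl
    -- the first shift
    obtain ⟨J₀, hJ₀⟩ : ∃ J₀, J₀ = loc₀ n (primorial y) b₀ := ⟨_, rfl⟩
    rw [← hJ₀] at hloc₀ ⊢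
    have hL4 : 36 ≤ Real.log n ^ 2 := by nlinarith
    have hL44 : 36 ≤ Real.log n ^ 4 := by
      have e1 : Real.log n ^ 4 = Real.log n ^ 2 * Real.log n ^ 2 := by ring
      rw [e1]
      nlinarith
    have key := hn5 n b6 y hy1b hy2 J₀ hloc₀ (fun v => v + b₀) (fun a _ c _ hac => by simp only at hac; omega) (by
      intro v hv
      rw [hJ₀] at hv
      unfold loc₀ at hv
      rw [mem_filter] at hv
      refine ⟨(cop hy2a hv.2).1, (cop hy2a hv.2).2, ?_⟩
      have h1 := D_le hv.1
      have h2 : ((v + b₀ : ℕ) : ℝ) ≤ 3 * n := by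
        have : v + b₀ ≤ 3 * n := by omega
        exact_mod_cast this
      nlinarith) g₀ G (by rw [pow_one]; exact hg1) (by rw [pow_one]; exact hg2)
    refine ⟨_, key, fun g hg hgE => ?_⟩
    obtain ⟨h₀, hh₀⟩ : ∃ h₀, h₀ = b₀ + primorial y * (g₀ + g) := ⟨_, rfl⟩
    rw [← hh₀]
    have hh₀n : h₀ ≤ 2 * n := by
      have : primorial y * (g₀ + g) ≤ n := (Nat.mul_le_mul_left _ (by have := (mem_Icc.1 hg).2; omega)).trans hg1
      omega
    constructor
    · have h1 : (1 - ε) * (J₀.card / (Pool.Agent.H373R2.T7.Vz y * (((1 : ℕ) : ℝ) * Real.log n))) ≤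
          ((J₀.filter (fun j => ((j + b₀) ^ 1 + primorial y * (g₀ + g)).Prime)).card : ℝ) := by
        by_contra hcon
        push Not at hcon
        apply hgE
        rw [mem_filter]
        exact ⟨hg, hcon⟩
      rw [hVe]
      rw [Nat.cast_one, one_mul] at h1
      refine h1.trans ?_
      apply Nat.cast_le.2
      apply card_le_card_of_injOn (fun v => v + h₀)
      · intro v hv
        rw [mem_coe, mem_filter] at hv
        rw [mem_coe]
        unfold Q
        rw [mem_filter, mem_image]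
        have h2 : (v + b₀) ^ 1 + primorial y * (g₀ + g) = v + h₀ := by rw [hh₀]; ring
        rw [h2] at hv
        have h3 : v ∈ D n := by
          rw [hJ₀] at hv
          exact (mem_filter.1 hv.1).1
        exact ⟨⟨v, h3, rfl⟩, hv.2⟩
      · intro a _ c _ hac
        simp only at hac
        omega
    · intro b g' G' hb hg1' hg2' hloc
      obtain ⟨J, hJd⟩ : ∃ J, J = loc n h₀ (primorial y) b := ⟨_, rfl⟩
      rw [← hJd] at hloc ⊢
      have hJm : ∀ q ∈ J, (q.Prime ∧ q ≤ 3 * n + 1) ∧ (p q - q - 1 + b 0).Coprime (primorial y) ∧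
          (p q - q + 1 + b 1).Coprime (primorial y) := by
        intro q hq
        rw [hJd] at hq
        unfold loc at hq
        rw [mem_filter] at hq
        have h1 := hq.1
        unfold Q at h1
        rw [mem_filter, mem_image] at h1
        obtain ⟨⟨v, hv, rfl⟩, h2⟩ := h1
        have := D_le hv
        exact ⟨⟨h2, by omega⟩, hq.2⟩
      have hJ2 : ∀ q ∈ J, 2 ≤ q := fun q hq => (hJm q hq).1.1.two_le
      have hpq : ∀ q ∈ J, (p q : ℝ) ≤ n * Real.log n ^ 2 := by
        intro q hq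
        exact hn4 n b4 (q - 1) (by have := (hJm q hq).1.2; omega)
      have h1 := hn2' n b2' y hy1a hy2 J hloc (F b) (fun i => F_inj b i J hJ2) (by
        intro i q hq
        have hq1 := hJm q hq
        have hq2 := hpq q hq
        have hbi : ((b i : ℕ) : ℝ) ≤ n := by exact_mod_cast hb i
        have hsz : (p q : ℝ) + 1 + n ≤ n * Real.log n ^ 4 := by
          have e1 : (n : ℝ) * (Real.log n ^ 2 * 36) ≤ n * (Real.log n ^ 2 * Real.log n ^ 2) := by
            apply mul_le_mul_of_nonneg_left _ (by linarith)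
            apply mul_le_mul_of_nonneg_left _ (by positivity)
            nlinarith
          have e2 : Real.log n ^ 2 * Real.log n ^ 2 = Real.log n ^ 4 := by ring
          rw [e2] at e1
          have e3 : 1 ≤ Real.log n ^ 2 := by nlinarith
          nlinarith
        fin_cases i
        · refine ⟨(cop hy2a hq1.2.1).1, (cop hy2a hq1.2.1).2, ?_⟩
          show ((p q - q - 1 + b 0 : ℕ) : ℝ) ≤ n * Real.log n ^ 4
          have e1 : ((p q - q - 1 + b 0 : ℕ) : ℝ) ≤ p q + n := by
            have : p q - q - 1 + b 0 ≤ p q + n := by have := hb 0; omega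
            exact_mod_cast this
          linarith
        · refine ⟨(cop hy2a hq1.2.2).1, (cop hy2a hq1.2.2).2, ?_⟩
          show ((p q - q + 1 + b 1 : ℕ) : ℝ) ≤ n * Real.log n ^ 4
          have e1 : ((p q - q + 1 + b 1 : ℕ) : ℝ) ≤ p q + 1 + n := by
            have : p q - q + 1 + b 1 ≤ p q + 1 + n := by have := hb 1; omega
            exact_mod_cast this
          linarith) g' G' (fun i => by rw [pow_one]; exact hg1' i) (fun i => by rw [pow_one]; exact hg2' i)
      rw [Fin.prod_univ_two, Fin.prod_univ_two] at h1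
      refine le_trans ?_ h1
      apply Nat.cast_le.2
      apply card_le_card
      intro f hf
      rw [mem_filter] at hf ⊢
      refine ⟨hf.1, ?_⟩
      have e2 : (Pool.Agent.H373R2.T7.Vz y * (((1 : ℕ) : ℝ) * Real.log n)) *
          (Pool.Agent.H373R2.T7.Vz y * (((1 : ℕ) : ℝ) * Real.log n)) = (V y * Real.log n) ^ 2 := by
        rw [hVe]
        push_cast
        ring
      rw [e2]
      refine lt_of_le_of_lt ?_ hf.2
      apply Nat.cast_le.2
      apply card_le_card
      intro q hq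
      rw [mem_filter] at hq
      unfold good
      rw [mem_filter]
      have hqQ : q ∈ Q n h₀ := by
        rw [hJd] at hq
        exact (mem_filter.1 hq.1).1
      have k0 := hq.2 0
      have k1 := hq.2 1
      refine ⟨hqQ, ?_, ?_⟩
      · have : (p q - q - 1 + b 0) ^ 1 + primorial y * (g' 0 + f 0) =
          p q - q - 1 + (b 0 + primorial y * (g' 0 + f 0)) := by ring
        rw [← this]
        exact k0
      · have : (p q - q + 1 + b 1) ^ 1 + primorial y * (g' 1 + f 1) =
          p q - q + 1 + (b 1 + primorial y * (g' 1 + f 1)) := by ring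
        rw [← this]
        exact k1
  · intro n M _
    have e1 : ∀ b : ℕ, (loc₀ n M b).card = ∑ v ∈ D n, (if (v + b).Coprime M then 1 else 0) := by
      intro b
      unfold loc₀
      rw [card_filter]
    simp_rw [e1]
    rw [sum_comm]
    have e2 : ∀ v ∈ D n, ∑ b ∈ Icc 1 M, (if (v + b).Coprime M then 1 else 0) = M.totient := by
      intro v _
      rw [← card_filter, Pool.Agent.Q234.TQ.unit_classes]
    rw [sum_congr rfl e2, sum_const, smul_eq_mul, mul_comm]
  · intro n h₀ M _
    have e1 : ∀ b : Fin 2 → ℕ, (loc n h₀ M b).card = ∑ q ∈ Q n h₀,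
        (if (p q - q - 1 + b 0).Coprime M ∧ (p q - q + 1 + b 1).Coprime M then 1 else 0) := by
      intro b
      unfold loc
      rw [card_filter]
    simp_rw [e1]
    rw [sum_comm]
    have e2 : ∀ q ∈ Q n h₀, ∑ b ∈ Fintype.piFinset (fun _ : Fin 2 => Icc 1 M),
        (if (p q - q - 1 + b 0).Coprime M ∧ (p q - q + 1 + b 1).Coprime M then 1 else 0) = M.totient ^ 2 := by
      intro q _
      rw [← card_filter]
      have e3 : (Fintype.piFinset (fun _ : Fin 2 => Icc 1 M)).filter
          (fun b : Fin 2 → ℕ => (p q - q - 1 + b 0).Coprime M ∧ (p q - q + 1 + b 1).Coprime M) =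
          Fintype.piFinset (fun i : Fin 2 => (Icc 1 M).filter
            (fun b => ((![p q - q - 1, p q - q + 1] : Fin 2 → ℕ) i + b).Coprime M)) := by
        ext b
        rw [mem_filter, Fintype.mem_piFinset, Fintype.mem_piFinset]
        simp only [Fin.forall_fin_two, mem_filter]
        exact ⟨fun h => ⟨⟨h.1.1, h.2.1⟩, ⟨h.1.2, h.2.2⟩⟩, fun h => ⟨⟨h.1.1, h.2.1⟩, ⟨h.1.2, h.2.2⟩⟩⟩
      rw [e3, Fintype.card_piFinset, Fin.prod_univ_two, Pool.Agent.Q234.TQ.unit_classes,
        Pool.Agent.Q234.TQ.unit_classes, sq]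
    rw [sum_congr rfl e2, sum_const, smul_eq_mul, mul_comm]

end Pool.Agent.Results.MP_61a569_nt.EveryEven
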