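import Pool.Agent.Q234.StQ
import Pool.Agent.Q234.TQ
import Pool.Agent.Q234.StR

/-!
# The totient-sum primes `q`: `p_q - q - 1 + h₁` and `p_q - q + 1 + h₂` prime for almost all pairs of shifts

Q1 asks for every `n ≥ 32` for `k` such that `q = φ(k) + φ(n - k) / 2 + 1`, `p_q - q - 1` and `p_q - q + 1` are primes.
Let `Q n` be the set of the primes `q` which occur for `n`. It is shown that the numbers `p_q - q - 1 + h₁`,
`p_q - q + 1 + h₂` are simultaneously prime for the expected number of the `q` in `Q n`, given the number of the `q` for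
which both are prime to all primes up to `y`, `y` of the order of magnitude `log log n`, for almost all pairs
`(h₁, h₂)` in every pair of residue classes modulo the primorial of `y`. For a positive proportion of the `n` the
set `Q n` has at least `n / (log n) ^ 14` elements (starting file).
-/

set_option autoImplicit false

open Finset Filter

namespace Pool.Agent.Results.MP_61a569_nt.ShiftPairs

/-- The `k`-th prime: `p 1 = 2`, `p 2 = 3`. -/
noncomputable def p (k : ℕ) : ℕ := Nat.nth Nat.Prime (k - 1)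

/-- The product of `1 - 1/q` over the primes `q ≤ y`. -/
noncomputable def V (y : ℕ) : ℝ := ∏ q ∈ (Icc 1 y).filter Nat.Prime, (1 - 1 / (q : ℝ))

/-- The primes `q = φ(k) + φ(n - k) / 2 + 1` with `1 ≤ k < n - 2`. -/
noncomputable def Q (n : ℕ) : Finset ℕ :=
  ((Ioo 0 (n - 2)).image (fun k => Nat.totient k + Nat.totient (n - k) / 2 + 1)).filter Nat.Prime

open Classical in
/-- The `q` in `Q n` for which `p_q - q - 1 + h 0` and `p_q - q + 1 + h 1` are prime. -/
noncomputable def good (n : ℕ) (h : Fin 2 → ℕ) : Finset ℕ :=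
  (Q n).filter (fun q => (p q - q - 1 + h 0).Prime ∧ (p q - q + 1 + h 1).Prime)

open Classical in
/-- The `q` in `Q n` for which `p_q - q - 1 + b 0` and `p_q - q + 1 + b 1` are prime to `M`. -/
noncomputable def loc (n M : ℕ) (b : Fin 2 → ℕ) : Finset ℕ :=
  (Q n).filter (fun q => (p q - q - 1 + b 0).Coprime M ∧ (p q - q + 1 + b 1).Coprime M)

/-- the two sequences -/
noncomputable def F (b : Fin 2 → ℕ) : Fin 2 → ℕ → ℕ := ![fun q => p q - q - 1 + b 0, fun q => p q - q + 1 + b 1]

theorem F_inj (b : Fin 2 → ℕ) (i : Fin 2) (J : Finset ℕ) (hJ : ∀ q ∈ J, 2 ≤ q) : Set.InjOn (F b i) J := by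
  intro a ha c hc hac
  rw [mem_coe] at ha hc
  have h1 := hJ a ha
  have h2 := hJ c hc
  have h3 := Nat.add_two_le_nth_prime (a - 1)
  have h4 := Nat.add_two_le_nth_prime (c - 1)
  apply Pool.Agent.Q234.TQ.p_sub_inj h1 h2
  fin_cases i
  · have h5 : p a - a - 1 + b 0 = p c - c - 1 + b 0 := hac
    unfold p at h5
    omega
  · have h5 : p a - a + 1 + b 1 = p c - c + 1 + b 1 := hac
    unfold p at h5
    omega

/-- (1) For all `A`, `C` and `0 < ε ≤ 1` there is `K₀` such that for every `K₁` and every large `n`, every `y`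
between `K₀ log log n` and `K₁ log log n`, with `M` the product of the primes `≤ y`, all `b 0, b 1 ≤ n` and all windows
`(g₀ i, g₀ i + G i]` with `M (g₀ i + G i) ≤ n`, `G i ≥ n / (M log ^ C n)`, `i = 0, 1`: if `loc n M b` has at least
`n / log ^ A n` elements, then for all but at most `ε (G 0) (G 1)` of the pairs `g`, `1 ≤ g i ≤ G i`, with
`h_i = b i + M (g₀ i + g i)`, for at least `(1 - ε) #(loc n M b) / (V y log n) ^ 2` of the `q` in `Q n` both
`p_q - q - 1 + h_0` and `p_q - q + 1 + h_1` are prime. (2) For every `n` and every `M ≥ 1` the sum of `#(loc n M b)` over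
the pairs `b` with `1 ≤ b 0, b 1 ≤ M` is `φ(M)² #(Q n)`. (3) For a positive proportion of the integers `n` the
set `Q n` has at least `n / (log n) ^ 14` elements. -/
theorem result : (∀ (A C : ℕ) (ε : ℝ), 0 < ε → ε ≤ 1 → ∃ K₀ : ℕ, ∀ K₁ : ℕ, ∃ n₀ : ℕ, ∀ n : ℕ, n₀ ≤ n →
    ∀ y : ℕ, K₀ * Real.log (Real.log n) ≤ y → y ≤ K₁ * Real.log (Real.log n) →
    ∀ b g₀ G : Fin 2 → ℕ, (∀ i, b i ≤ n) → (∀ i, primorial y * (g₀ i + G i) ≤ n) →
      (∀ i, (n : ℝ) ≤ primorial y * G i * Real.log n ^ C) →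
      (n : ℝ) ≤ (loc n (primorial y) b).card * Real.log n ^ A →
      (((Fintype.piFinset fun i => Icc 1 (G i)).filter (fun g =>
        ((good n (fun i => b i + primorial y * (g₀ i + g i))).card : ℝ) <
        (1 - ε) * ((loc n (primorial y) b).card / (V y * Real.log n) ^ 2))).card : ℝ) ≤ ε * (G 0 * G 1)) ∧
    (∀ n M : ℕ, 1 ≤ M → ∑ b ∈ Fintype.piFinset (fun _ : Fin 2 => Icc 1 M), (loc n M b).card =
      M.totient ^ 2 * (Q n).card) ∧
    (∃ c : ℝ, 0 < c ∧ ∀ᶠ x : ℕ in atTop,
      c * x ≤ (Set.ncard {n : ℕ | 32 ≤ n ∧ n ≤ x ∧ (n : ℝ) / Real.log n ^ 14 ≤ ((Q n).card : ℝ)} : ℝ)) := by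
  classical
  refine ⟨?_, ?_, Pool.Agent.Q234.TQ.good_cardQ⟩
  · intro A C ε hε hε1
    obtain ⟨K₀', hK₀'⟩ := Pool.Agent.Q234.StQ.stepQ 4 C 2 (fun _ => 1) (fun _ => Or.inl rfl) A ε hε hε1
    refine ⟨max K₀' 2, fun K₁ => ?_⟩
    obtain ⟨n2', hn2'⟩ := hK₀' K₁
    obtain ⟨n3, hn3⟩ := Pool.Agent.H373R2.T7.ev_L' (max 6 (Real.exp 1))
    obtain ⟨n4, hn4⟩ := Pool.Agent.Y877.SX.nth_le_log
    refine ⟨max n2' (max n3 (max n4 2)), fun n hn y hy1 hy2 b g₀ G hb hg1 hg2 hloc => ?_⟩
    have b2' : n2' ≤ n := le_trans (le_max_left _ _) hn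
    have b3 : n3 ≤ n := le_trans (le_trans (le_max_left _ _) (le_max_right _ _)) hn
    have b4 : n4 ≤ n := le_trans (le_trans (le_trans (le_max_left _ _) (le_max_right _ _)) (le_max_right _ _)) hn
    have b5 : 2 ≤ n := le_trans (le_trans (le_trans (le_max_right _ _) (le_max_right _ _)) (le_max_right _ _)) hn
    have hL6 : 6 ≤ Real.log n := (le_max_left _ _).trans (hn3 n b3)
    have hLe : Real.exp 1 ≤ Real.log n := (le_max_right _ _).trans (hn3 n b3)
    have hlL : 1 ≤ Real.log (Real.log n) := by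
      rw [← Real.log_exp 1]
      exact Real.log_le_log (Real.exp_pos 1) hLe
    have hlL0 : 0 ≤ Real.log (Real.log n) := by linarith
    have hy1a : (K₀' : ℝ) * Real.log (Real.log n) ≤ y :=
      le_trans (mul_le_mul_of_nonneg_right (by exact_mod_cast le_max_left _ _) hlL0) hy1
    have hy2a : 2 ≤ y := by
      have h1 : (2 : ℝ) ≤ y := by
        refine le_trans ?_ hy1
        have h2 : (2 : ℝ) ≤ ((max K₀' 2 : ℕ) : ℝ) := by exact_mod_cast le_max_right _ _
        nlinarith
      exact_mod_cast h1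
    obtain ⟨J, hJd⟩ : ∃ J, J = loc n (primorial y) b := ⟨_, rfl⟩
    rw [← hJd] at hloc ⊢
    have hJm : ∀ q ∈ J, (q.Prime ∧ q ≤ n + 1) ∧ (p q - q - 1 + b 0).Coprime (primorial y) ∧
        (p q - q + 1 + b 1).Coprime (primorial y) := by
      intro q hq
      rw [hJd] at hq
      unfold loc at hq
      rw [mem_filter] at hq
      exact ⟨Pool.Agent.Q234.TQ.mem_Q_le hq.1, hq.2⟩
    have hJ2 : ∀ q ∈ J, 2 ≤ q := fun q hq => (hJm q hq).1.1.two_le
    have hcop : ∀ v : ℕ, v.Coprime (primorial y) → 1 ≤ v ∧ ∀ l : ℕ, l.Prime → l ≤ y → ¬ l ∣ v := by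
      intro v hv
      have h2 : ∀ l : ℕ, l.Prime → l ≤ y → ¬ l ∣ v := by
        intro l hl hly hd
        have h3 := Nat.dvd_gcd hd (hl.dvd_primorial_iff.2 hly)
        rw [Nat.coprime_iff_gcd_eq_one.1 hv] at h3
        exact hl.one_lt.ne' (Nat.dvd_one.1 h3)
      refine ⟨?_, h2⟩
      by_contra h0
      exact h2 2 Nat.prime_two hy2a (by
        have : v = 0 := by omega
        rw [this]
        exact dvd_zero 2)
    have hpq : ∀ q ∈ J, (p q : ℝ) ≤ n * Real.log n ^ 2 := by
      intro q hq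
      exact hn4 n b4 (q - 1) (by have := (hJm q hq).1.2; omega)
    have h1 := hn2' n b2' y hy1a hy2 J hloc (F b) (fun i => F_inj b i J hJ2) (by
      intro i q hq
      have hq1 := hJm q hq
      have hq2 := hpq q hq
      have hbi : ((b i : ℕ) : ℝ) ≤ n := by exact_mod_cast hb i
      have hn1 : (1 : ℝ) ≤ n := by exact_mod_cast (by omega : 1 ≤ n)
      have hsz : (p q : ℝ) + 1 + n ≤ n * Real.log n ^ 4 := by
        have e1 : (n : ℝ) * (Real.log n ^ 2 * 36) ≤ n * (Real.log n ^ 2 * Real.log n ^ 2) := by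
          apply mul_le_mul_of_nonneg_left _ (by linarith)
          apply mul_le_mul_of_nonneg_left _ (by positivity)
          nlinarith
        have e2 : Real.log n ^ 2 * Real.log n ^ 2 = Real.log n ^ 4 := by ring
        rw [e2] at e1
        have e3 : 1 ≤ Real.log n ^ 2 := by nlinarith
        nlinarith
      fin_cases i
      · refine ⟨(hcop _ hq1.2.1).1, (hcop _ hq1.2.1).2, ?_⟩
        show ((p q - q - 1 + b 0 : ℕ) : ℝ) ≤ n * Real.log n ^ 4
        have e1 : ((p q - q - 1 + b 0 : ℕ) : ℝ) ≤ p q + n := by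
          have : p q - q - 1 + b 0 ≤ p q + n := by have := hb 0; omega
          exact_mod_cast this
        linarith
      · refine ⟨(hcop _ hq1.2.2).1, (hcop _ hq1.2.2).2, ?_⟩
        show ((p q - q + 1 + b 1 : ℕ) : ℝ) ≤ n * Real.log n ^ 4
        have e1 : ((p q - q + 1 + b 1 : ℕ) : ℝ) ≤ p q + 1 + n := by
          have : p q - q + 1 + b 1 ≤ p q + 1 + n := by have := hb 1; omega
          exact_mod_cast this
        linarith) g₀ G (fun i => by rw [pow_one]; exact hg1 i) (fun i => by rw [pow_one]; exact hg2 i)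
    rw [Fin.prod_univ_two, Fin.prod_univ_two] at h1
    refine le_trans ?_ h1
    apply Nat.cast_le.2
    apply card_le_card
    intro g hg
    rw [mem_filter] at hg ⊢
    refine ⟨hg.1, ?_⟩
    have e2 : (Pool.Agent.H373R2.T7.Vz y * (((1 : ℕ) : ℝ) * Real.log n)) *
        (Pool.Agent.H373R2.T7.Vz y * (((1 : ℕ) : ℝ) * Real.log n)) = (V y * Real.log n) ^ 2 := by
      have : V y = Pool.Agent.H373R2.T7.Vz y := rfl
      rw [this]
      push_cast
      ring
    rw [e2]
    refine lt_of_le_of_lt ?_ hg.2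
    apply Nat.cast_le.2
    apply card_le_card
    intro q hq
    rw [mem_filter] at hq
    unfold good
    rw [mem_filter]
    have hqQ : q ∈ Q n := by
      rw [hJd] at hq
      exact (mem_filter.1 hq.1).1
    have k0 := hq.2 0
    have k1 := hq.2 1
    refine ⟨hqQ, ?_, ?_⟩
    · have : (p q - q - 1 + b 0) ^ 1 + primorial y * (g₀ 0 + g 0) =
        p q - q - 1 + (b 0 + primorial y * (g₀ 0 + g 0)) := by ring
      rw [← this]
      exact k0
    · have : (p q - q + 1 + b 1) ^ 1 + primorial y * (g₀ 1 + g 1) =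
        p q - q + 1 + (b 1 + primorial y * (g₀ 1 + g 1)) := by ring
      rw [← this]
      exact k1
  · intro n M hM
    have e1 : ∀ b : Fin 2 → ℕ, (loc n M b).card = ∑ q ∈ Q n,
        (if (p q - q - 1 + b 0).Coprime M ∧ (p q - q + 1 + b 1).Coprime M then 1 else 0) := by
      intro b
      unfold loc
      rw [card_filter]
    simp_rw [e1]
    rw [sum_comm]
    have e2 : ∀ q ∈ Q n, ∑ b ∈ Fintype.piFinset (fun _ : Fin 2 => Icc 1 M),
        (if (p q - q - 1 + b 0).Coprime M ∧ (p q - q + 1 + b 1).Coprime M then 1 else 0) = M.totient ^ 2 := by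
      intro q _
      rw [← card_filter]
      have e3 : (Fintype.piFinset (fun _ : Fin 2 => Icc 1 M)).filter
          (fun b : Fin 2 → ℕ => (p q - q - 1 + b 0).Coprime M ∧ (p q - q + 1 + b 1).Coprime M) =
          Fintype.piFinset (fun i : Fin 2 => (Icc 1 M).filter
            (fun b => ((![p q - q - 1, p q - q + 1] : Fin 2 → ℕ) i + b).Coprime M)) := by
        ext b
        rw [mem_filter, Fintype.mem_piFinset, Fintype.mem_piFinset]
        simp only [Fin.forall_fin_two, mem_filter]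
        exact ⟨fun h => ⟨⟨h.1.1, h.2.1⟩, ⟨h.1.2, h.2.2⟩⟩, fun h => ⟨⟨h.1.1, h.2.1⟩, ⟨h.1.2, h.2.2⟩⟩⟩
      rw [e3, Fintype.card_piFinset, Fin.prod_univ_two, Pool.Agent.Q234.TQ.unit_classes,
        Pool.Agent.Q234.TQ.unit_classes, sq]
    rw [sum_congr rfl e2, sum_const, smul_eq_mul, mul_comm]

end Pool.Agent.Results.MP_61a569_nt.ShiftPairs
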