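import Pool.Agent.Results.MP_61a569_nt.ThreeStructuredShifts

/-!
# All three conditions after the addition of very few elements of arbitrary sets to the shifts

In the question one looks for `v = φ(k) + φ(n - k) / 2 + 1` such that `q = v`, `p_q - q - 1` and `p_q - q + 1` are prime. Here the three
numbers are shifted: `q = v + h₀`, `p_q - q - 1 + h₁` and `p_q - q + 1 + h₂`. The shifts are ARBITRARY integers `c₀`, `c₁`, `c₂` (for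
example all `0`), to which very few elements of arbitrary sets are added; the same corrections serve all `n` of an arbitrary
set of at most `log ^ D Y` integers, arbitrary sets of values `v`, and all shifts in windows.

The definitions `D`, `First`, `qs`, `Second`, `IsPrime`, `Rough`, `V` are those of the file `ThreeStructuredShifts`.
-/

set_option autoImplicit false

namespace Pool.Agent.Results.MP_61a569_nt.ThreeCorrectedShifts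

open Finset
open Pool.Agent.Results.MP_61a569_nt.ThreeStructuredShifts (p D IsPrime Rough V First qs Second D_le)

lemma p_gt (q : ℕ) (hq : 2 ≤ q) : q + 1 ≤ p q := by
  have : 2 * q - 1 ≤ p q := Pool.Agent.Q26.IX.pp_ge q (by omega)
  omega

lemma p_step (q : ℕ) (hq : 1 ≤ q) : p q + 1 ≤ p (q + 1) := by
  have h4 : Nat.nth Nat.Prime (q - 1) < Nat.nth Nat.Prime (q + 1 - 1) :=
    Nat.nth_strictMono Nat.infinite_setOfPred_prime (by omega)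
  exact h4

lemma p_sub_mono (x y : ℕ) (hx : 2 ≤ x) (hxy : x < y) : p x + y < p y + x := by
  obtain ⟨d, rfl⟩ : ∃ d, y = x + 1 + d := ⟨y - (x + 1), by omega⟩
  clear hxy
  induction d with
  | zero =>
    have h10 : p x < p (x + 1) := p_step x (by omega)
    have h11 := (Nat.prime_nth_prime (x - 1)).odd_of_ne_two (by
      have : x + 1 ≤ Nat.nth Nat.Prime (x - 1) := p_gt x hx
      omega)
    have h12 := (Nat.prime_nth_prime (x + 1 - 1)).odd_of_ne_two (by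
      have : x + 1 + 1 ≤ Nat.nth Nat.Prime (x + 1 - 1) := p_gt (x + 1) (by omega)
      omega)
    have h13 : Odd (p x) := h11
    have h14 : Odd (p (x + 1)) := h12
    obtain ⟨u, hu⟩ := h13
    obtain ⟨w, hw⟩ := h14
    change p x + (x + 1) < p (x + 1) + x
    omega
  | succ d ih =>
    have h10 := p_step (x + 1 + d) (by omega)
    have e5 : x + 1 + (d + 1) = x + 1 + d + 1 := by ring
    rw [e5]
    omega

lemma p_sub_inj (q r : ℕ) (hq : 2 ≤ q) (hr : 2 ≤ r) (h : p q - q = p r - r) : q = r := by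
  have h5 := p_gt q hq
  have h6 := p_gt r hr
  rcases lt_trichotomy q r with h8 | h8 | h8
  · have := p_sub_mono q r hq h8
    omega
  · exact h8
  · have := p_sub_mono r q hr h8
    omega

lemma first_of (l P R A Dd : ℕ) (hl : 2 ≤ l) (hP : 1 ≤ P) : ∃ C : ℝ, ∀ H B : ℕ, ∃ B₀ : ℕ, ∀ (E : ℕ) (ε : ℝ), 0 < ε →
    ∃ Y₀ : ℕ, ∀ T : Set ℕ, (∀ x : ℕ, 1 ≤ x → ∃ a ∈ T, x ≤ a ∧ a ≤ l * x) → ∀ Y, Y₀ ≤ Y →
    ∀ z : ℕ, Real.log Y ^ B₀ ≤ z → (z : ℝ) ≤ Real.log Y ^ E →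
    ∀ c : ℤ, |c| ≤ (B : ℤ) * Y → ∀ 𝒩 : Finset ℕ, (𝒩.card : ℝ) ≤ Real.log Y ^ Dd → ∀ D' : ℕ → Finset ℕ,
    (∀ n ∈ 𝒩, ∀ v ∈ D' n, 1 ≤ v ∧ v ≤ Y) →
    ∃ S : Finset ℕ, (∀ x ∈ S, x ∈ T ∧ Real.log Y ^ H ≤ x ∧ (x : ℝ) ≤ Y / Real.log Y ^ H) ∧
      ((S.card : ℝ) ≤ C * Real.log (Real.log Y) ^ 2) ∧ (P ∣ ∑ x ∈ S, x) ∧ ∀ n ∈ 𝒩, ∀ h : ℤ,
      ((|h - (c + ∑ x ∈ S, (x : ℤ))| : ℤ) : ℝ) ≤ Real.log Y ^ R → First ε A Y z (D' n) h := by
  classical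
  obtain ⟨C, h0⟩ := Pool.Agent.Q26.IX.ix_las_fam 1 l P R A Dd le_rfl hl hP
  refine ⟨C, fun H B => ?_⟩
  obtain ⟨B₀, h0⟩ := h0 H B
  refine ⟨B₀, fun E ε hε => ?_⟩
  obtain ⟨Y₀, h1⟩ := h0 E ε hε
  refine ⟨Y₀, fun T hT Y hY z hz1 hz2 c hc 𝒩 h𝒩 D' hD' => ?_⟩
  obtain ⟨τ, hτ⟩ : ∃ τ : Finset (Fin 1 → ℕ), τ = 𝒩.image (fun n _ => n) := ⟨_, rfl⟩
  have hτ0 : ∀ y ∈ τ, y 0 ∈ 𝒩 := by
    intro y hy
    rw [hτ, mem_image] at hy
    obtain ⟨n, hn, rfl⟩ := hy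
    exact hn
  obtain ⟨S, g1, g2, g3, g4⟩ := h1 (fun _ => T) (fun _ => hT) Y hY z hz1 hz2 (fun _ => c) (fun _ => hc) τ (by
      refine le_trans ?_ h𝒩
      rw [hτ]
      exact_mod_cast card_image_le) (fun y => D' (y 0)) (fun _ => 1) (fun _ _ v => v)
    (fun _ => Or.inl rfl) (fun y hy _ v hv => hD' _ (hτ0 y hy) v hv) (fun _ _ _ v _ w _ hvw => hvw)
  refine ⟨S 0, g1 0, g2 0, g3 0, fun n hn h hh => ?_⟩
  have h3 := g4 (fun _ => n) (by rw [hτ]; exact mem_image_of_mem _ hn) (fun _ => h) (fun i => by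
    have : i = 0 := Subsingleton.elim _ _
    rw [this]
    exact hh)
  have e2 : Pool.Agent.Q26.IX.prm (D' n) (fun _ : Fin 1 => 1) (fun _ v => v) (fun _ => h) =
      ((D' n).filter fun v : ℕ => IsPrime (v + h)).card := by
    unfold Pool.Agent.Q26.IX.prm Pool.Agent.Q26.IX.IsP IsPrime
    apply congrArg card
    ext k
    simp only [mem_filter]
    simp
  have e3 : Pool.Agent.Q26.IX.rgh (D' n) z (fun _ : Fin 1 => 1) (fun _ v => v) (fun _ => h) =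
      ((D' n).filter fun v : ℕ => Rough z (v + h)).card := by
    unfold Pool.Agent.Q26.IX.rgh Pool.Agent.Q26.IX.IsR Rough
    apply congrArg card
    ext k
    simp only [mem_filter]
    simp
  rw [e2, e3, pow_one] at h3
  exact h3

lemma second_of (l P R A Dd : ℕ) (hl : 2 ≤ l) (hP : 1 ≤ P) : ∃ C : ℝ, ∀ H B : ℕ, ∃ B₀ : ℕ, ∀ (E : ℕ) (ε : ℝ), 0 < ε →
    ∃ X₀ : ℕ, ∀ T : Fin 2 → Set ℕ, (∀ i, ∀ x : ℕ, 1 ≤ x → ∃ a ∈ T i, x ≤ a ∧ a ≤ l * x) → ∀ X, X₀ ≤ X →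
    ∀ z : ℕ, Real.log X ^ B₀ ≤ z → (z : ℝ) ≤ Real.log X ^ E →
    ∀ c : Fin 2 → ℤ, (∀ i, |c i| ≤ (B : ℤ) * X) → ∀ (m : ℤ) (𝒩 : Finset (ℕ × ℕ)), (𝒩.card : ℝ) ≤ Real.log X ^ Dd →
    ∀ (D' : ℕ → Finset ℕ),
    ∃ S : Fin 2 → Finset ℕ, (∀ i, ∀ x ∈ S i, x ∈ T i ∧ Real.log X ^ H ≤ x ∧ (x : ℝ) ≤ X / Real.log X ^ H) ∧
      (∀ i, ((S i).card : ℝ) ≤ C * Real.log (Real.log X) ^ 2) ∧ (∀ i, P ∣ ∑ x ∈ S i, x) ∧ ∀ y ∈ 𝒩, ∀ h₁ h₂ : ℤ,
      ((|h₁ - (c 0 + ∑ x ∈ S 0, (x : ℤ))| : ℤ) : ℝ) ≤ Real.log X ^ R → ((|h₂ - (c 1 + ∑ x ∈ S 1, (x : ℤ))| : ℤ) : ℝ) ≤ Real.log X ^ R →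
      Second ε A X z (D' y.1) (m + y.2) h₁ h₂ := by
  classical
  obtain ⟨C, h0⟩ := Pool.Agent.Q26.IX.ix_las_fam 2 l P (R + 1) A Dd (by norm_num) hl hP
  refine ⟨C, fun H B => ?_⟩
  obtain ⟨B₀, h0⟩ := h0 H B
  refine ⟨B₀, fun E ε hε => ?_⟩
  obtain ⟨X₀, h1⟩ := h0 E ε hε
  obtain ⟨n, hn⟩ := exists_nat_ge (Real.exp 2)
  refine ⟨X₀ + n + 1, fun T hT X hX z hz1 hz2 c hc m 𝒩 h𝒩 D' => ?_⟩
  have hX0 : (0 : ℝ) < X := by exact_mod_cast (by omega : 0 < X)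
  have hL : 2 ≤ Real.log X := by
    rw [Real.le_log_iff_exp_le hX0]
    refine hn.trans ?_
    exact_mod_cast (by omega : n ≤ X)
  have hLR : Real.log (X : ℝ) ^ R + 1 ≤ Real.log X ^ (R + 1) := by
    have : 1 ≤ Real.log (X : ℝ) ^ R := one_le_pow₀ (by linarith)
    rw [pow_succ]
    nlinarith
  have hq2 : ∀ (E' : Finset ℕ) (h₀ : ℤ), ∀ q ∈ qs X E' h₀, 2 ≤ q ∧ p q ≤ X := by
    intro E' h₀ q hq
    unfold qs at hq
    rw [mem_filter] at hq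
    exact ⟨hq.2.1.two_le, hq.2.2.1⟩
  obtain ⟨τ, hτ⟩ : ∃ τ : Finset (Fin 2 → ℕ), τ = 𝒩.image (fun y => ![y.1, y.2]) := ⟨_, rfl⟩
  obtain ⟨S, g1, g2, g3, g4⟩ := h1 T hT X (by omega) z hz1 hz2 c hc τ (by
      refine le_trans ?_ h𝒩
      rw [hτ]
      exact_mod_cast card_image_le) (fun y => qs X (D' (y 0)) (m + y 1)) (fun _ => 1) (fun _ _ q => p q - q)
    (fun _ => Or.inl rfl) (fun _ _ _ q hq => by
      have h3 := hq2 _ _ q hq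
      have h4 := p_gt q h3.1
      omega) (fun _ _ _ q hq r hr hqr => p_sub_inj q r (hq2 _ _ q hq).1 (hq2 _ _ r hr).1 hqr)
  refine ⟨S, g1, g2, g3, fun y hy h₁ h₂ hh₁ hh₂ => ?_⟩
  have h3 := g4 ![y.1, y.2] (by rw [hτ]; exact mem_image_of_mem (fun y : ℕ × ℕ => ![y.1, y.2]) hy) ![h₁ - 1, h₂ + 1] (by
        rw [Fin.forall_fin_two]
        constructor
        · have e4 : |(h₁ - 1) - (c 0 + ∑ x ∈ S 0, (x : ℤ))| ≤ |h₁ - (c 0 + ∑ x ∈ S 0, (x : ℤ))| + 1 := by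
            have := abs_add_le (h₁ - (c 0 + ∑ x ∈ S 0, (x : ℤ))) (-1)
            rw [abs_neg, abs_one] at this
            refine le_trans (le_of_eq ?_) this
            congr 1; ring
          have e5 : ((|(h₁ - 1) - (c 0 + ∑ x ∈ S 0, (x : ℤ))| : ℤ) : ℝ) ≤ ((|h₁ - (c 0 + ∑ x ∈ S 0, (x : ℤ))| : ℤ) : ℝ) + 1 := by
            exact_mod_cast e4
          exact e5.trans (by linarith)
        · have e4 : |(h₂ + 1) - (c 1 + ∑ x ∈ S 1, (x : ℤ))| ≤ |h₂ - (c 1 + ∑ x ∈ S 1, (x : ℤ))| + 1 := by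
            have := abs_add_le (h₂ - (c 1 + ∑ x ∈ S 1, (x : ℤ))) 1
            rw [abs_one] at this
            refine le_trans (le_of_eq ?_) this
            congr 1; ring
          have e5 : ((|(h₂ + 1) - (c 1 + ∑ x ∈ S 1, (x : ℤ))| : ℤ) : ℝ) ≤ ((|h₂ - (c 1 + ∑ x ∈ S 1, (x : ℤ))| : ℤ) : ℝ) + 1 := by
            exact_mod_cast e4
          exact e5.trans (by linarith))
  obtain ⟨Q, hQ⟩ : ∃ Q, Q = qs X (D' y.1) (m + y.2) := ⟨_, rfl⟩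
  have hcast : ∀ q ∈ Q, ((p q - q : ℕ) : ℤ) = (p q : ℤ) - q := by
    intro q hq
    rw [hQ] at hq
    have h4 := p_gt q (hq2 _ _ q hq).1
    rw [Nat.cast_sub (by omega)]
  have e2 : Pool.Agent.Q26.IX.prm Q (fun _ : Fin 2 => 1) (fun _ q => p q - q) ![h₁ - 1, h₂ + 1] =
      (Q.filter fun q : ℕ => IsPrime ((p q : ℤ) - q - 1 + h₁) ∧ IsPrime ((p q : ℤ) - q + 1 + h₂)).card := by
    unfold Pool.Agent.Q26.IX.prm Pool.Agent.Q26.IX.IsP IsPrime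
    apply congrArg card
    ext q
    simp only [mem_filter, Fin.forall_fin_two]
    apply and_congr_right
    intro hq
    rw [hcast q hq]
    have a1 : (1 : ℤ) * ((p q : ℤ) - q) + (![h₁ - 1, h₂ + 1] : Fin 2 → ℤ) 0 = (p q : ℤ) - q - 1 + h₁ := by simp; ring
    have a2 : (1 : ℤ) * ((p q : ℤ) - q) + (![h₁ - 1, h₂ + 1] : Fin 2 → ℤ) 1 = (p q : ℤ) - q + 1 + h₂ := by simp; ring
    rw [a1, a2]
  have e3 : Pool.Agent.Q26.IX.rgh Q z (fun _ : Fin 2 => 1) (fun _ q => p q - q) ![h₁ - 1, h₂ + 1] =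
      (Q.filter fun q : ℕ => Rough z ((p q : ℤ) - q - 1 + h₁) ∧ Rough z ((p q : ℤ) - q + 1 + h₂)).card := by
    unfold Pool.Agent.Q26.IX.rgh Pool.Agent.Q26.IX.IsR Rough
    apply congrArg card
    ext q
    simp only [mem_filter, Fin.forall_fin_two]
    apply and_congr_right
    intro hq
    rw [hcast q hq]
    have a1 : (1 : ℤ) * ((p q : ℤ) - q) + (![h₁ - 1, h₂ + 1] : Fin 2 → ℤ) 0 = (p q : ℤ) - q - 1 + h₁ := by simp; ring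
    have a2 : (1 : ℤ) * ((p q : ℤ) - q) + (![h₁ - 1, h₂ + 1] : Fin 2 → ℤ) 1 = (p q : ℤ) - q + 1 + h₂ := by simp; ring
    rw [a1, a2]
  have h3' : |(Pool.Agent.Q26.IX.prm Q (fun _ : Fin 2 => 1) (fun _ q => p q - q) ![h₁ - 1, h₂ + 1] : ℝ) -
      Pool.Agent.Q26.IX.rgh Q z (fun _ : Fin 2 => 1) (fun _ q => p q - q) ![h₁ - 1, h₂ + 1] /
        (Pool.Agent.H373R2.T7.Vz z * Real.log X) ^ 2| ≤
      ε * (Pool.Agent.Q26.IX.rgh Q z (fun _ : Fin 2 => 1) (fun _ q => p q - q) ![h₁ - 1, h₂ + 1] /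
        (Pool.Agent.H373R2.T7.Vz z * Real.log X) ^ 2) + X / Real.log X ^ A := by
    rw [hQ]
    exact h3
  rw [e2, e3, hQ] at h3'
  exact h3'

/-- **All three conditions, with shifts corrected by very few elements of arbitrary sets.** Let `l ≥ 2`, `P ≥ 1`, `R`, `A` and `G` be
given. There is `C` such that for all `H`, `B` there is `B₀` such that for all `E` and `ε > 0` there is `Y₀` with the following
property. Let `T 0`, `T 1`, `T 2` be ARBITRARY sets of integers, each of which contains an element of every interval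
`[x, l x]` with `x ≥ 1`. Let `Y ≥ Y₀`, `Y ≤ X ≤ Y ^ 2`, `log ^ B₀ X ≤ z ≤ log ^ E Y`, let `c₀`, `c₁`, `c₂` be ARBITRARY integers with
`|c₀| ≤ B Y` and `|c₁|, |c₂| ≤ B X` (for example all `0`), let `𝒩` be an ARBITRARY set of at most `log ^ G Y` integers
`n ≤ Y`, and for every `n` in `𝒩` let `D' n` be an ARBITRARY set of values `φ(k) + φ(n - k) / 2 + 1`, `1 ≤ k < n - 2`. There are
sets `S₀` of at most `C (log log Y) ^ 2` elements of `T 0` between `log ^ H Y` and `Y / log ^ H Y`, and `S 0`, `S 1` of at most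
`C (log log X) ^ 2` elements of `T 1`, `T 2` between `log ^ H X` and `X / log ^ H X`, all with sums divisible by `P`, such that
for all `n` in `𝒩` ALL integers `h₀`, `h₁`, `h₂` at a distance of at most `log ^ R Y` from `c₀ + ∑ S₀`, `c₁ + ∑ S 0`,
`c₂ + ∑ S 1` satisfy the formulas `First` (for the `v` in `D' n` with `v + h₀` prime) and `Second` (for the primes `q = v + h₀`
with `p_q ≤ X` such that `p_q - q - 1 + h₁` and `p_q - q + 1 + h₂` are prime). -/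
theorem result (l P R A G : ℕ) (hl : 2 ≤ l) (hP : 1 ≤ P) : ∃ C : ℝ, ∀ H B : ℕ, ∃ B₀ : ℕ, ∀ (E : ℕ) (ε : ℝ), 0 < ε →
    ∃ Y₀ : ℕ, ∀ T : Fin 3 → Set ℕ, (∀ i, ∀ x : ℕ, 1 ≤ x → ∃ a ∈ T i, x ≤ a ∧ a ≤ l * x) →
    ∀ Y X : ℕ, Y₀ ≤ Y → Y ≤ X → X ≤ Y ^ 2 → ∀ z : ℕ, Real.log X ^ B₀ ≤ z → (z : ℝ) ≤ Real.log Y ^ E →
    ∀ c₀ c₁ c₂ : ℤ, |c₀| ≤ (B : ℤ) * Y → |c₁| ≤ (B : ℤ) * X → |c₂| ≤ (B : ℤ) * X →
    ∀ 𝒩 : Finset ℕ, (𝒩.card : ℝ) ≤ Real.log Y ^ G → (∀ n ∈ 𝒩, n ≤ Y) → ∀ D' : ℕ → Finset ℕ, (∀ n ∈ 𝒩, D' n ⊆ D n) →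
    ∃ (S₀ : Finset ℕ) (S : Fin 2 → Finset ℕ),
      ((∀ x ∈ S₀, x ∈ T 0 ∧ Real.log Y ^ H ≤ x ∧ (x : ℝ) ≤ Y / Real.log Y ^ H) ∧
        (S₀.card : ℝ) ≤ C * Real.log (Real.log Y) ^ 2 ∧ P ∣ ∑ x ∈ S₀, x) ∧
      (∀ i : Fin 2, (∀ x ∈ S i, x ∈ T i.succ ∧ Real.log X ^ H ≤ x ∧ (x : ℝ) ≤ X / Real.log X ^ H) ∧
        ((S i).card : ℝ) ≤ C * Real.log (Real.log X) ^ 2 ∧ P ∣ ∑ x ∈ S i, x) ∧
      ∀ n ∈ 𝒩, ∀ h₀ h₁ h₂ : ℤ, ((|h₀ - (c₀ + ∑ x ∈ S₀, (x : ℤ))| : ℤ) : ℝ) ≤ Real.log Y ^ R →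
        ((|h₁ - (c₁ + ∑ x ∈ S 0, (x : ℤ))| : ℤ) : ℝ) ≤ Real.log Y ^ R → ((|h₂ - (c₂ + ∑ x ∈ S 1, (x : ℤ))| : ℤ) : ℝ) ≤ Real.log Y ^ R →
        First ε A Y z (D' n) h₀ ∧ Second ε A X z (D' n) h₀ h₁ h₂ := by
  classical
  obtain ⟨C₁, h1⟩ := first_of l P R A G hl hP
  obtain ⟨C₂, h2⟩ := second_of l P R A (G + (R + 1)) hl hP
  refine ⟨max C₁ C₂, fun H B => ?_⟩
  obtain ⟨B₁, h1⟩ := h1 H B
  obtain ⟨B₂, h2⟩ := h2 H B
  refine ⟨B₁ + B₂, fun E ε hε => ?_⟩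
  obtain ⟨Y₁, h1⟩ := h1 E ε hε
  obtain ⟨X₁, h2⟩ := h2 E ε hε
  obtain ⟨m, hm⟩ := exists_nat_ge (Real.exp 3)
  refine ⟨Y₁ + X₁ + m + 1, fun T hT Y X hY hYX hXY z hz1 hz2 c₀ c₁ c₂ hc₀ hc₁ hc₂ 𝒩 h𝒩 hn D' hD' => ?_⟩
  have hY0 : (0 : ℝ) < Y := by exact_mod_cast (by omega : 0 < Y)
  have hYX' : (Y : ℝ) ≤ X := by exact_mod_cast hYX
  have hLY : 3 ≤ Real.log Y := by
    rw [Real.le_log_iff_exp_le hY0]
    refine hm.trans ?_
    exact_mod_cast (by omega : m ≤ Y)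
  have hLYX : Real.log (Y : ℝ) ≤ Real.log X := Real.log_le_log hY0 hYX'
  obtain ⟨L, hL⟩ : ∃ L, L = Real.log (Y : ℝ) := ⟨_, rfl⟩
  obtain ⟨M, hM⟩ : ∃ M, M = Real.log (X : ℝ) := ⟨_, rfl⟩
  obtain ⟨S₀, a1, a2, a3, a4⟩ := h1 (T 0) (hT 0) Y (by omega) z (by
      rw [← hL]
      rw [← hL, ← hM] at hLYX
      rw [← hM] at hz1
      rw [← hL] at hLY
      refine le_trans ?_ hz1
      calc L ^ B₁ ≤ M ^ B₁ := pow_le_pow_left₀ (by linarith) hLYX _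
        _ ≤ M ^ (B₁ + B₂) := pow_le_pow_right₀ (by linarith) (Nat.le_add_right _ _)) hz2 c₀ hc₀ 𝒩 h𝒩 D' (fun n hn' v hv => by
      have := D_le n v (hD' n hn' hv)
      exact ⟨this.1, this.2.trans (hn n hn')⟩)
  obtain ⟨r, hr⟩ : ∃ r : ℕ, r = ⌊L ^ R⌋₊ := ⟨_, rfl⟩
  have hr1 : (r : ℝ) ≤ L ^ R := by rw [hr]; exact Nat.floor_le (by rw [hL]; positivity)
  obtain ⟨S, b1, b2, b3, b4⟩ := h2 (fun i => T i.succ) (fun i => hT i.succ) X (by omega) z (by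
      rw [← hL, ← hM] at hLYX
      rw [← hM] at hz1 ⊢
      rw [← hL] at hLY
      exact le_trans (pow_le_pow_right₀ (by linarith) (Nat.le_add_left _ _)) hz1) (by
      refine hz2.trans (pow_le_pow_left₀ (by linarith) hLYX _)) ![c₁, c₂] (by
      rw [Fin.forall_fin_two]; exact ⟨hc₁, hc₂⟩) (c₀ + ∑ x ∈ S₀, (x : ℤ) - r) (𝒩 ×ˢ range (2 * r + 1)) (by
      rw [card_product, card_range]
      push_cast
      rw [← hL, ← hM] at hLYX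
      rw [← hL] at hLY h𝒩
      rw [← hM, pow_add]
      have h5 : (1 : ℝ) ≤ L ^ R := one_le_pow₀ (by linarith)
      have h6 : 2 * (r : ℝ) + 1 ≤ M ^ (R + 1) := by
        calc 2 * (r : ℝ) + 1 ≤ 2 * L ^ R + L ^ R := by linarith
          _ = L ^ R * 3 := by ring
          _ ≤ L ^ R * L := mul_le_mul_of_nonneg_left hLY (by positivity)
          _ = L ^ (R + 1) := by rw [pow_succ]
          _ ≤ M ^ (R + 1) := pow_le_pow_left₀ (by linarith) hLYX _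
      have h7 : (𝒩.card : ℝ) ≤ M ^ G := h𝒩.trans (pow_le_pow_left₀ (by linarith) hLYX _)
      exact mul_le_mul h7 h6 (by positivity) (pow_nonneg (by linarith) _)) D'
  refine ⟨S₀, S, ⟨a1, a2.trans (mul_le_mul_of_nonneg_right (le_max_left _ _) (sq_nonneg _)), a3⟩,
    fun i => ⟨b1 i, (b2 i).trans (mul_le_mul_of_nonneg_right (le_max_right _ _) (sq_nonneg _)), b3 i⟩, ?_⟩
  intro n hn' h₀ h₁ h₂ g0 g1 g2
  refine ⟨a4 n hn' h₀ g0, ?_⟩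
  obtain ⟨d, hd⟩ : ∃ d, d = h₀ - (c₀ + ∑ x ∈ S₀, (x : ℤ)) := ⟨_, rfl⟩
  have g0' : ((|d| : ℤ) : ℝ) ≤ L ^ R := by rw [hd, hL]; exact g0
  have h8 : (|d|).toNat ≤ r := by
    rw [hr]
    apply Nat.le_floor
    have h9 : (((|d|).toNat : ℤ) : ℝ) = ((|d| : ℤ) : ℝ) := by rw [Int.toNat_of_nonneg (abs_nonneg _)]
    have h10 : (((|d|).toNat : ℕ) : ℝ) = ((|d| : ℤ) : ℝ) := by rw [← h9]; norm_cast
    rw [h10]; exact g0'
  have h11 : |d| ≤ (r : ℤ) := by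
    have := Int.toNat_of_nonneg (abs_nonneg d)
    omega
  have h12 := abs_le.1 h11
  have h13 := b4 (n, (d + r).toNat) (by
    rw [mem_product, mem_range]
    refine ⟨hn', ?_⟩
    change (d + r).toNat < 2 * r + 1
    omega) h₁ h₂ (by
      refine g1.trans ?_
      exact pow_le_pow_left₀ (by linarith) hLYX _) (by
      refine g2.trans ?_
      exact pow_le_pow_left₀ (by linarith) hLYX _)
  have h14 : c₀ + ∑ x ∈ S₀, (x : ℤ) - r + ((d + r).toNat : ℤ) = h₀ := by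
    rw [Int.toNat_of_nonneg (by omega), hd]
    ring
  have h15 : ((n, (d + r).toNat) : ℕ × ℕ).2 = (d + r).toNat := rfl
  rw [h15, h14] at h13
  exact h13

end Pool.Agent.Results.MP_61a569_nt.ThreeCorrectedShifts
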