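import Pool.Agent.Q26.IX.It

/-!
# All three conditions for all shifts near almost all elements of structured sets, for every `n`

In the question one looks for `v = φ(k) + φ(n - k) / 2 + 1` such that `q = v`, `p_q - q - 1` and `p_q - q + 1` are prime. Here, for
EVERY `n` and every set `D'` of such values `v`, the three numbers are shifted: `q = v + h₀`, `p_q - q - 1 + h₁` and
`p_q - q + 1 + h₂`, where the shifts are ALL integers in windows of radius `log ^ R` around `c + κ u` with elements `u` of structured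
sets (palindromes with a given number of digits, or non-sparse automatic sets).

Definitions from `Pool.Agent.Q26.IX.K`: `Kind`, `Kind.IsSet` (structured sets at the scale `X`), `pal`, `aut`.
-/

set_option autoImplicit false

namespace Pool.Agent.Results.MP_61a569_nt.ThreeStructuredShifts

open Finset
open Pool.Agent.Q26.IX (Kind)

/-- `p k` is the `k`-th prime, `p 1 = 2`. -/
noncomputable def p (k : ℕ) : ℕ := Nat.nth Nat.Prime (k - 1)

/-- The values `φ(k) + φ(n - k) / 2 + 1` with `1 ≤ k < n - 2`. -/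
def D (n : ℕ) : Finset ℕ := (Ico 1 (n - 2)).image fun k => k.totient + (n - k).totient / 2 + 1

/-- The integer `x` is a prime number. -/
def IsPrime (x : ℤ) : Prop := ∃ r : ℕ, r.Prime ∧ (r : ℤ) = x

/-- The integer `x` is positive and has no prime factor up to `z`. -/
def Rough (z : ℕ) (x : ℤ) : Prop := 1 ≤ x ∧ ∀ r : ℕ, r.Prime → r ≤ z → ¬ (r : ℤ) ∣ x

/-- `V(z) = ∏_{r ≤ z} (1 - 1 / r)`, `r` prime -/
noncomputable def V (z : ℕ) : ℝ := ∏ r ∈ (Icc 1 z).filter Nat.Prime, (1 - 1 / (r : ℝ))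

open Classical in
/-- The first condition: the number of the `v` in `D'` with `v + h₀` prime is `T = W / (V(z) log Y)` up to `ε T + Y / log ^ A Y`,
where `W` is the number of the `v` in `D'` for which `v + h₀` is positive without prime factor up to `z`. -/
def First (ε : ℝ) (A Y z : ℕ) (D' : Finset ℕ) (h₀ : ℤ) : Prop :=
  |((D'.filter fun v : ℕ => IsPrime (v + h₀)).card : ℝ) - ((D'.filter fun v : ℕ => Rough z (v + h₀)).card : ℝ) / (V z * Real.log Y)| ≤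
    ε * (((D'.filter fun v : ℕ => Rough z (v + h₀)).card : ℝ) / (V z * Real.log Y)) + Y / Real.log Y ^ A

open Classical in
/-- The primes `q = v + h₀` with `v` in `D'` and `p_q ≤ X`. -/
noncomputable def qs (X : ℕ) (D' : Finset ℕ) (h₀ : ℤ) : Finset ℕ :=
  (Icc 1 X).filter fun q => q.Prime ∧ p q ≤ X ∧ ∃ v ∈ D', (q : ℤ) = v + h₀

open Classical in
/-- The other two conditions: the number of the primes `q` in `qs X D' h₀` with `p_q - q - 1 + h₁` and `p_q - q + 1 + h₂` prime is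
`T = W / (V(z) log X) ^ 2` up to `ε T + X / log ^ A X`, where `W` is the number of these `q` for which both numbers are
positive without prime factor up to `z`. -/
def Second (ε : ℝ) (A X z : ℕ) (D' : Finset ℕ) (h₀ h₁ h₂ : ℤ) : Prop :=
  |(((qs X D' h₀).filter fun q : ℕ => IsPrime ((p q : ℤ) - q - 1 + h₁) ∧ IsPrime ((p q : ℤ) - q + 1 + h₂)).card : ℝ) -
    (((qs X D' h₀).filter fun q : ℕ => Rough z ((p q : ℤ) - q - 1 + h₁) ∧ Rough z ((p q : ℤ) - q + 1 + h₂)).card : ℝ) /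
      (V z * Real.log X) ^ 2| ≤
    ε * ((((qs X D' h₀).filter fun q : ℕ => Rough z ((p q : ℤ) - q - 1 + h₁) ∧ Rough z ((p q : ℤ) - q + 1 + h₂)).card : ℝ) /
      (V z * Real.log X) ^ 2) + X / Real.log X ^ A

lemma first_of (B R A U : ℕ) (hB : 1 ≤ B) (kd : Kind) (κ : ℤ) (hκ : κ ≠ 0) : ∃ B₀ : ℕ, ∀ (E : ℕ) (ε : ℝ), 0 < ε →
    ∃ Y₀ : ℕ, ∀ Y, Y₀ ≤ Y → ∀ z : ℕ, Real.log Y ^ B₀ ≤ z → (z : ℝ) ≤ Real.log Y ^ E → ∀ S : Finset ℕ, kd.IsSet B Y S →
    ∀ c : ℤ, |c| ≤ (B : ℤ) * Y → ∀ D' : Finset ℕ, (∀ v ∈ D', 1 ≤ v ∧ v ≤ Y) →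
    ∃ E₀ : Finset ℕ, E₀ ⊆ S ∧ (E₀.card : ℝ) ≤ S.card / Real.log Y ^ U ∧ ∀ v ∈ S, v ∉ E₀ → ∀ h : ℤ,
      ((|h - (c + κ * (v : ℤ))| : ℤ) : ℝ) ≤ Real.log Y ^ R → First ε A Y z D' h := by
  classical
  obtain ⟨B₀, h0⟩ := Pool.Agent.Q26.IX.ix_kinds 1 le_rfl (fun _ => κ) (fun _ => hκ) (fun _ => kd) B R A U hB
  refine ⟨B₀, fun E ε hε => ?_⟩
  obtain ⟨Y₀, h1⟩ := h0 E ε hε
  refine ⟨Y₀, fun Y hY z hz1 hz2 S hS c hc D' hD' => ?_⟩
  have h2 := h1 Y hY z hz1 hz2 (fun _ => S) (fun _ => hS) (fun _ => c) (fun _ => hc) D' (fun _ => 1) (fun _ v => v)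
    (fun _ => Or.inl rfl) (fun _ v hv => hD' v hv) (fun _ v _ w _ hvw => hvw)
  refine ⟨S.filter fun v => ¬ ∀ h : ℤ, ((|h - (c + κ * (v : ℤ))| : ℤ) : ℝ) ≤ Real.log Y ^ R → First ε A Y z D' h,
    filter_subset _ _, ?_, ?_⟩
  · have e1 : ((Fintype.piFinset fun _ : Fin 1 => S).card : ℝ) = S.card := by
      rw [Fintype.card_piFinset]; simp
    rw [e1] at h2
    refine le_trans ?_ h2
    apply Nat.cast_le.2
    apply card_le_card_of_injOn (fun v => fun _ : Fin 1 => v)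
    · intro v hv
      rw [mem_coe, mem_filter] at hv
      rw [mem_coe, mem_filter]
      refine ⟨Fintype.mem_piFinset.2 fun _ => hv.1, fun hall => hv.2 fun h hh => ?_⟩
      have h3 := hall (fun _ => h) (fun _ => hh)
      have e2 : Pool.Agent.Q26.IX.prm D' (fun _ : Fin 1 => 1) (fun _ v => v) (fun _ => h) =
          (D'.filter fun v : ℕ => IsPrime (v + h)).card := by
        unfold Pool.Agent.Q26.IX.prm Pool.Agent.Q26.IX.IsP IsPrime
        apply congrArg card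
        ext k
        simp only [mem_filter]
        simp
      have e3 : Pool.Agent.Q26.IX.rgh D' z (fun _ : Fin 1 => 1) (fun _ v => v) (fun _ => h) =
          (D'.filter fun v : ℕ => Rough z (v + h)).card := by
        unfold Pool.Agent.Q26.IX.rgh Pool.Agent.Q26.IX.IsR Rough
        apply congrArg card
        ext k
        simp only [mem_filter]
        simp
      rw [e2, e3, pow_one] at h3
      exact h3
    · intro v _ w _ hvw
      exact congrFun hvw 0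
  · intro v hv hv2
    rw [mem_filter, not_and, not_not] at hv2
    exact hv2 hv

lemma second_of (B R A U : ℕ) (hB : 1 ≤ B) (kd₁ kd₂ : Kind) (κ₁ κ₂ : ℤ) (hκ₁ : κ₁ ≠ 0) (hκ₂ : κ₂ ≠ 0) : ∃ B₀ : ℕ, ∀ (E : ℕ) (ε : ℝ), 0 < ε →
    ∃ X₀ : ℕ, ∀ X, X₀ ≤ X → ∀ z : ℕ, Real.log X ^ B₀ ≤ z → (z : ℝ) ≤ Real.log X ^ E → ∀ S₁ S₂ : Finset ℕ, kd₁.IsSet B X S₁ →
    kd₂.IsSet B X S₂ → ∀ c₁ c₂ : ℤ, |c₁| ≤ (B : ℤ) * X → |c₂| ≤ (B : ℤ) * X → ∀ (D' : Finset ℕ) (h₀ : ℤ),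
    ∃ E₀ : Finset (ℕ × ℕ), E₀ ⊆ S₁ ×ˢ S₂ ∧ (E₀.card : ℝ) ≤ (S₁.card * S₂.card) / Real.log X ^ U ∧ ∀ v ∈ S₁ ×ˢ S₂, v ∉ E₀ → ∀ h₁ h₂ : ℤ,
      ((|h₁ - (c₁ + κ₁ * (v.1 : ℤ))| : ℤ) : ℝ) ≤ Real.log X ^ R → ((|h₂ - (c₂ + κ₂ * (v.2 : ℤ))| : ℤ) : ℝ) ≤ Real.log X ^ R →
      Second ε A X z D' h₀ h₁ h₂ := by
  classical
  obtain ⟨B₀, h0⟩ := Pool.Agent.Q26.IX.ix_kinds 2 (by norm_num) ![κ₁, κ₂] (by
    rw [Fin.forall_fin_two]; exact ⟨hκ₁, hκ₂⟩) ![kd₁, kd₂] B (R + 1) A U hB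
  refine ⟨B₀, fun E ε hε => ?_⟩
  obtain ⟨X₀, h1⟩ := h0 E ε hε
  obtain ⟨n, hn⟩ := exists_nat_ge (Real.exp 2)
  refine ⟨X₀ + n + 1, fun X hX z hz1 hz2 S₁ S₂ hS₁ hS₂ c₁ c₂ hc₁ hc₂ D' h₀ => ?_⟩
  have hX0 : (0 : ℝ) < X := by exact_mod_cast (by omega : 0 < X)
  have hL : 2 ≤ Real.log X := by
    rw [Real.le_log_iff_exp_le hX0]
    refine hn.trans ?_
    exact_mod_cast (by omega : n ≤ X)
  have hLR : Real.log (X : ℝ) ^ R + 1 ≤ Real.log X ^ (R + 1) := by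
    have : 1 ≤ Real.log (X : ℝ) ^ R := one_le_pow₀ (by linarith)
    rw [pow_succ]
    nlinarith
  have hq2 : ∀ q ∈ qs X D' h₀, 2 ≤ q ∧ p q ≤ X := by
    intro q hq
    unfold qs at hq
    rw [mem_filter] at hq
    exact ⟨hq.2.1.two_le, hq.2.2.1⟩
  have hpq : ∀ q, 2 ≤ q → q + 1 ≤ p q := by
    intro q hq
    have : 2 * q - 1 ≤ p q := Pool.Agent.Q26.IX.pp_ge q (by omega)
    omega
  have hstep : ∀ q, 1 ≤ q → p q + 1 ≤ p (q + 1) := by
    intro q hq
    have h4 : Nat.nth Nat.Prime (q - 1) < Nat.nth Nat.Prime (q + 1 - 1) :=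
      Nat.nth_strictMono Nat.infinite_setOfPred_prime (by omega)
    exact h4
  have h2' := h1 X (by omega) z hz1 hz2 ![S₁, S₂] (by
      rw [Fin.forall_fin_two]; exact ⟨hS₁, hS₂⟩) ![c₁, c₂] (by
      rw [Fin.forall_fin_two]; exact ⟨hc₁, hc₂⟩) (qs X D' h₀) (fun _ => 1) (fun _ q => p q - q)
    (fun _ => Or.inl rfl) (fun _ q hq => by
      have h3 := hq2 q hq
      have h4 := hpq q h3.1
      omega) (by
      intro _ q hq r hr hqr
      have h3 := hq2 q hq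
      have h4 := hq2 r hr
      have h5 := hpq q h3.1
      have h6 := hpq r h4.1
      have h7 : p q - q = p r - r := hqr
      have h9 : p q + r = p r + q := by omega
      -- `p_q - q` is strictly increasing for `q ≥ 2`
      have hmono : ∀ x y : ℕ, 2 ≤ x → x < y → p x + y < p y + x := by
        intro x y hx hxy
        obtain ⟨d, rfl⟩ : ∃ d, y = x + 1 + d := ⟨y - (x + 1), by omega⟩
        clear hxy
        induction d with
        | zero =>
          have h10 : p x < p (x + 1) := hstep x (by omega)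
          have h11 := (Nat.prime_nth_prime (x - 1)).odd_of_ne_two (by
            have : x + 1 ≤ Nat.nth Nat.Prime (x - 1) := hpq x hx
            omega)
          have h12 := (Nat.prime_nth_prime (x + 1 - 1)).odd_of_ne_two (by
            have : x + 1 + 1 ≤ Nat.nth Nat.Prime (x + 1 - 1) := hpq (x + 1) (by omega)
            omega)
          have h13 : Odd (p x) := h11
          have h14 : Odd (p (x + 1)) := h12
          obtain ⟨u, hu⟩ := h13
          obtain ⟨w, hw⟩ := h14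
          change p x + (x + 1) < p (x + 1) + x
          omega
        | succ d ih =>
          have h10 := hstep (x + 1 + d) (by omega)
          have e5 : x + 1 + (d + 1) = x + 1 + d + 1 := by ring
          rw [e5]
          omega
      rcases lt_trichotomy q r with h8 | h8 | h8
      · have := hmono q r h3.1 h8
        omega
      · exact h8
      · have := hmono r q h4.1 h8
        omega)
  refine ⟨(S₁ ×ˢ S₂).filter fun v => ¬ ∀ h₁ h₂ : ℤ,
      ((|h₁ - (c₁ + κ₁ * (v.1 : ℤ))| : ℤ) : ℝ) ≤ Real.log X ^ R → ((|h₂ - (c₂ + κ₂ * (v.2 : ℤ))| : ℤ) : ℝ) ≤ Real.log X ^ R →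
      Second ε A X z D' h₀ h₁ h₂, filter_subset _ _, ?_, ?_⟩
  · have e1 : ((Fintype.piFinset ![S₁, S₂]).card : ℝ) = S₁.card * S₂.card := by
      rw [Fintype.card_piFinset, Fin.prod_univ_two]
      simp
    rw [e1] at h2'
    refine le_trans ?_ h2'
    apply Nat.cast_le.2
    apply card_le_card_of_injOn (fun v => ![v.1, v.2])
    · intro v hv
      rw [mem_coe, mem_filter, mem_product] at hv
      rw [mem_coe, mem_filter]
      refine ⟨Fintype.mem_piFinset.2 (by rw [Fin.forall_fin_two]; exact hv.1), fun hall => hv.2 fun h₁ h₂ hh₁ hh₂ => ?_⟩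
      have h3 := hall ![h₁ - 1, h₂ + 1] (by
        rw [Fin.forall_fin_two]
        constructor
        · have e4 : |(h₁ - 1) - (c₁ + κ₁ * (v.1 : ℤ))| ≤ |h₁ - (c₁ + κ₁ * (v.1 : ℤ))| + 1 := by
            have := abs_add_le (h₁ - (c₁ + κ₁ * (v.1 : ℤ))) (-1)
            rw [abs_neg, abs_one] at this
            refine le_trans (le_of_eq ?_) this
            congr 1; ring
          have e5 : ((|(h₁ - 1) - (c₁ + κ₁ * (v.1 : ℤ))| : ℤ) : ℝ) ≤ ((|h₁ - (c₁ + κ₁ * (v.1 : ℤ))| : ℤ) : ℝ) + 1 := by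
            exact_mod_cast e4
          exact e5.trans (by linarith)
        · have e4 : |(h₂ + 1) - (c₂ + κ₂ * (v.2 : ℤ))| ≤ |h₂ - (c₂ + κ₂ * (v.2 : ℤ))| + 1 := by
            have := abs_add_le (h₂ - (c₂ + κ₂ * (v.2 : ℤ))) 1
            rw [abs_one] at this
            refine le_trans (le_of_eq ?_) this
            congr 1; ring
          have e5 : ((|(h₂ + 1) - (c₂ + κ₂ * (v.2 : ℤ))| : ℤ) : ℝ) ≤ ((|h₂ - (c₂ + κ₂ * (v.2 : ℤ))| : ℤ) : ℝ) + 1 := by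
            exact_mod_cast e4
          exact e5.trans (by linarith))
      have hcast : ∀ q ∈ qs X D' h₀, ((p q - q : ℕ) : ℤ) = (p q : ℤ) - q := by
        intro q hq
        have h4 := hpq q (hq2 q hq).1
        rw [Nat.cast_sub (by omega)]
      have e2 : Pool.Agent.Q26.IX.prm (qs X D' h₀) (fun _ : Fin 2 => 1) (fun _ q => p q - q) ![h₁ - 1, h₂ + 1] =
          ((qs X D' h₀).filter fun q : ℕ => IsPrime ((p q : ℤ) - q - 1 + h₁) ∧ IsPrime ((p q : ℤ) - q + 1 + h₂)).card := by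
        unfold Pool.Agent.Q26.IX.prm Pool.Agent.Q26.IX.IsP IsPrime
        apply congrArg card
        ext q
        simp only [mem_filter, Fin.forall_fin_two]
        apply and_congr_right
        intro hq
        rw [hcast q hq]
        have a1 : (1 : ℤ) * ((p q : ℤ) - q) + (![h₁ - 1, h₂ + 1] : Fin 2 → ℤ) 0 = (p q : ℤ) - q - 1 + h₁ := by simp; ring
        have a2 : (1 : ℤ) * ((p q : ℤ) - q) + (![h₁ - 1, h₂ + 1] : Fin 2 → ℤ) 1 = (p q : ℤ) - q + 1 + h₂ := by simp; ring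
        rw [a1, a2]
      have e3 : Pool.Agent.Q26.IX.rgh (qs X D' h₀) z (fun _ : Fin 2 => 1) (fun _ q => p q - q) ![h₁ - 1, h₂ + 1] =
          ((qs X D' h₀).filter fun q : ℕ => Rough z ((p q : ℤ) - q - 1 + h₁) ∧ Rough z ((p q : ℤ) - q + 1 + h₂)).card := by
        unfold Pool.Agent.Q26.IX.rgh Pool.Agent.Q26.IX.IsR Rough
        apply congrArg card
        ext q
        simp only [mem_filter, Fin.forall_fin_two]
        apply and_congr_right
        intro hq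
        rw [hcast q hq]
        have a1 : (1 : ℤ) * ((p q : ℤ) - q) + (![h₁ - 1, h₂ + 1] : Fin 2 → ℤ) 0 = (p q : ℤ) - q - 1 + h₁ := by simp; ring
        have a2 : (1 : ℤ) * ((p q : ℤ) - q) + (![h₁ - 1, h₂ + 1] : Fin 2 → ℤ) 1 = (p q : ℤ) - q + 1 + h₂ := by simp; ring
        rw [a1, a2]
      rw [e2, e3] at h3
      exact h3
    · intro v _ w _ hvw
      have f1 := congrFun hvw 0
      have f2 := congrFun hvw 1
      exact Prod.ext f1 f2
  · intro v hv hv2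
    rw [mem_filter, not_and, not_not] at hv2
    exact hv2 hv

lemma D_le (n v : ℕ) (hv : v ∈ D n) : 1 ≤ v ∧ v ≤ n := by
  unfold D at hv
  rw [mem_image] at hv
  obtain ⟨k, hk, rfl⟩ := hv
  rw [mem_Ico] at hk
  have h1 := Nat.totient_le k
  have h2 := Nat.totient_le (n - k)
  omega

open Classical in
/-- **All three conditions, for every `n`.** Let three kinds of structured sets, integers `κ i ≠ 0`, and `B ≥ 1`, `R`, `A`, `U` be
given. There is `B₀` such that for all `E` and `ε > 0` and all large `Y` the following holds. Let `Y ≤ X ≤ Y ^ 2`, let `z` lie between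
`log ^ B₀ X` and `log ^ E Y`, let `S₀` be a set of the first kind at the scale `Y` and `S₁`, `S₂` sets of the other kinds at the
scale `X`, and let `c₀`, `c₁`, `c₂` be arbitrary integers with `|c₀| ≤ B Y`, `|c₁|, |c₂| ≤ B X`. Let `n ≤ Y`, and let `D'` be an
ARBITRARY set of values `φ(k) + φ(n - k) / 2 + 1`, `1 ≤ k < n - 2`. Then for all triples `(u₀, u₁, u₂)` in
`S₀ × S₁ × S₂`, with the exception of at most a proportion `1 / log ^ U Y` of them, ALL integers `h₀`, `h₁`, `h₂` with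
`|h_i - (c_i + κ_i u_i)| ≤ log ^ R Y` satisfy the formula `First` for the number of the `v` in `D'` with `v + h₀` prime and
the formula `Second` for the number of these primes `q = v + h₀` (with `p_q ≤ X`) for which `p_q - q - 1 + h₁` and
`p_q - q + 1 + h₂` are prime. -/
theorem result (kd : Fin 3 → Kind) (κ : Fin 3 → ℤ) (hκ : ∀ i, κ i ≠ 0) (B R A U : ℕ) (hB : 1 ≤ B) :
    ∃ B₀ : ℕ, ∀ (E : ℕ) (ε : ℝ), 0 < ε → ∃ Y₀ : ℕ, ∀ Y X : ℕ, Y₀ ≤ Y → Y ≤ X → X ≤ Y ^ 2 →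
      ∀ z : ℕ, Real.log X ^ B₀ ≤ z → (z : ℝ) ≤ Real.log Y ^ E →
      ∀ S₀ S₁ S₂ : Finset ℕ, (kd 0).IsSet B Y S₀ → (kd 1).IsSet B X S₁ → (kd 2).IsSet B X S₂ →
      ∀ c₀ c₁ c₂ : ℤ, |c₀| ≤ (B : ℤ) * Y → |c₁| ≤ (B : ℤ) * X → |c₂| ≤ (B : ℤ) * X → ∀ n : ℕ, n ≤ Y → ∀ D' ⊆ D n,
      (((S₀ ×ˢ (S₁ ×ˢ S₂)).filter fun u => ¬ ∀ h₀ h₁ h₂ : ℤ, ((|h₀ - (c₀ + κ 0 * (u.1 : ℤ))| : ℤ) : ℝ) ≤ Real.log Y ^ R →
        ((|h₁ - (c₁ + κ 1 * (u.2.1 : ℤ))| : ℤ) : ℝ) ≤ Real.log Y ^ R → ((|h₂ - (c₂ + κ 2 * (u.2.2 : ℤ))| : ℤ) : ℝ) ≤ Real.log Y ^ R →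
        First ε A Y z D' h₀ ∧ Second ε A X z D' h₀ h₁ h₂).card : ℝ) ≤
      (S₀.card * (S₁.card * S₂.card)) / Real.log Y ^ U := by
  obtain ⟨B₁, h1⟩ := first_of B R A (U + 1) hB (kd 0) (κ 0) (hκ 0)
  obtain ⟨B₂, h2⟩ := second_of B R A (U + R + 2) hB (kd 1) (kd 2) (κ 1) (κ 2) (hκ 1) (hκ 2)
  refine ⟨B₁ + B₂, fun E ε hε => ?_⟩
  obtain ⟨Y₁, h1⟩ := h1 E ε hε
  obtain ⟨X₁, h2⟩ := h2 E ε hε
  obtain ⟨m, hm⟩ := exists_nat_ge (Real.exp 3)
  refine ⟨Y₁ + X₁ + m + 1, fun Y X hY hYX hXY z hz1 hz2 S₀ S₁ S₂ hS₀ hS₁ hS₂ c₀ c₁ c₂ hc₀ hc₁ hc₂ n hn D' hD' => ?_⟩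
  have hY0 : (0 : ℝ) < Y := by exact_mod_cast (by omega : 0 < Y)
  have hYX' : (Y : ℝ) ≤ X := by exact_mod_cast hYX
  have hLY : 3 ≤ Real.log Y := by
    rw [Real.le_log_iff_exp_le hY0]
    refine hm.trans ?_
    exact_mod_cast (by omega : m ≤ Y)
  have hLYX : Real.log (Y : ℝ) ≤ Real.log X := Real.log_le_log hY0 hYX'
  obtain ⟨L, hL⟩ : ∃ L, L = Real.log (Y : ℝ) := ⟨_, rfl⟩
  obtain ⟨M, hM⟩ : ∃ M, M = Real.log (X : ℝ) := ⟨_, rfl⟩
  obtain ⟨E₀, a1, a2, a3⟩ := h1 Y (by omega) z (by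
      rw [← hL]
      rw [← hL, ← hM] at hLYX
      rw [← hM] at hz1
      rw [← hL] at hLY
      refine le_trans ?_ hz1
      calc L ^ B₁ ≤ M ^ B₁ := pow_le_pow_left₀ (by linarith) hLYX _
        _ ≤ M ^ (B₁ + B₂) := pow_le_pow_right₀ (by linarith) (Nat.le_add_right _ _)) hz2 S₀ hS₀ c₀ hc₀ D' (fun v hv => by
      have := D_le n v (hD' hv)
      exact ⟨this.1, this.2.trans hn⟩)
  have h2' := h2 X (by omega) z (by
      rw [← hL, ← hM] at hLYX
      rw [← hM] at hz1 ⊢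
      rw [← hL] at hLY
      exact le_trans (pow_le_pow_right₀ (by linarith) (Nat.le_add_left _ _)) hz1) (by
      refine hz2.trans (pow_le_pow_left₀ (by linarith) hLYX _)) S₁ S₂ hS₁ hS₂ c₁ c₂ hc₁ hc₂ D'
  choose Eh b1 b2 b3 using h2'
  rw [← hL] at hLY hLYX a2 a3 ⊢
  rw [← hM] at hLYX b2 b3
  obtain ⟨r, hr⟩ : ∃ r : ℕ, r = ⌊L ^ R⌋₊ := ⟨_, rfl⟩
  have hr1 : (r : ℝ) ≤ L ^ R := by rw [hr]; exact Nat.floor_le (by positivity)
  obtain ⟨W, hW⟩ : ∃ W : ℕ → Finset ℤ, W = fun u : ℕ => Icc (c₀ + κ 0 * (u : ℤ) - r) (c₀ + κ 0 * (u : ℤ) + r) := ⟨_, rfl⟩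
  have hWc : ∀ u, ((W u).card : ℝ) ≤ L ^ (R + 1) := by
    intro u
    rw [hW]
    dsimp only
    rw [Int.card_Icc]
    have e1 : (c₀ + κ 0 * (u : ℤ) + r + 1 - (c₀ + κ 0 * (u : ℤ) - r)).toNat = 2 * r + 1 := by omega
    rw [e1]
    push_cast
    have h5 : (1 : ℝ) ≤ L ^ R := one_le_pow₀ (by linarith)
    calc 2 * (r : ℝ) + 1 ≤ 2 * L ^ R + L ^ R := by linarith
      _ = L ^ R * 3 := by ring
      _ ≤ L ^ R * L := mul_le_mul_of_nonneg_left hLY (by positivity)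
      _ = L ^ (R + 1) := by rw [pow_succ]
  have hsub : ((S₀ ×ˢ (S₁ ×ˢ S₂)).filter fun u => ¬ ∀ h₀ h₁ h₂ : ℤ, ((|h₀ - (c₀ + κ 0 * (u.1 : ℤ))| : ℤ) : ℝ) ≤ L ^ R →
        ((|h₁ - (c₁ + κ 1 * (u.2.1 : ℤ))| : ℤ) : ℝ) ≤ L ^ R → ((|h₂ - (c₂ + κ 2 * (u.2.2 : ℤ))| : ℤ) : ℝ) ≤ L ^ R →
        First ε A Y z D' h₀ ∧ Second ε A X z D' h₀ h₁ h₂) ⊆
      (E₀ ×ˢ (S₁ ×ˢ S₂)) ∪ (S₀.biUnion fun u => (W u).biUnion fun h => {u} ×ˢ Eh h) := by
    intro u hu
    rw [mem_filter, mem_product] at hu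
    obtain ⟨⟨hu0, hu12⟩, hbad⟩ := hu
    rw [mem_union]
    by_cases hE : u.1 ∈ E₀
    · left
      exact mem_product.2 ⟨hE, hu12⟩
    · right
      push Not at hbad
      obtain ⟨h₀, h₁, h₂, g0, g1, g2, g3⟩ := hbad
      have hfirst := a3 u.1 hu0 hE h₀ g0
      have hsec := g3 hfirst
      rw [mem_biUnion]
      refine ⟨u.1, hu0, ?_⟩
      rw [mem_biUnion]
      refine ⟨h₀, ?_, ?_⟩
      · rw [hW]
        dsimp only
        have h8 : (|h₀ - (c₀ + κ 0 * (u.1 : ℤ))|).toNat ≤ r := by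
          rw [hr]
          apply Nat.le_floor
          have h9 : (((|h₀ - (c₀ + κ 0 * (u.1 : ℤ))|).toNat : ℤ) : ℝ) = ((|h₀ - (c₀ + κ 0 * (u.1 : ℤ))| : ℤ) : ℝ) := by
            rw [Int.toNat_of_nonneg (abs_nonneg _)]
          have h10 : (((|h₀ - (c₀ + κ 0 * (u.1 : ℤ))|).toNat : ℕ) : ℝ) = ((|h₀ - (c₀ + κ 0 * (u.1 : ℤ))| : ℤ) : ℝ) := by
            rw [← h9]; norm_cast
          rw [h10]; exact g0
        have h11 : |h₀ - (c₀ + κ 0 * (u.1 : ℤ))| ≤ (r : ℤ) := by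
          have := Int.toNat_of_nonneg (abs_nonneg (h₀ - (c₀ + κ 0 * (u.1 : ℤ))))
          omega
        have h12 := abs_le.1 h11
        rw [mem_Icc]
        constructor <;> linarith [h12.1, h12.2]
      · rw [mem_product, mem_singleton]
        refine ⟨rfl, ?_⟩
        by_contra hcon
        exact hsec (b3 h₀ u.2 hu12 hcon h₁ h₂ (g1.trans (pow_le_pow_left₀ (by linarith) hLYX _))
          (g2.trans (pow_le_pow_left₀ (by linarith) hLYX _)))
  have hLp : 0 < L := by linarith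
  have hMp : 0 < M := by linarith
  obtain ⟨P, hP⟩ : ∃ P : ℝ, P = S₁.card * S₂.card := ⟨_, rfl⟩
  have hP0 : 0 ≤ P := by rw [hP]; positivity
  have hN0 : (0 : ℝ) ≤ S₀.card := Nat.cast_nonneg _
  simp only [← hP] at b2 ⊢
  calc _ ≤ (((E₀ ×ˢ (S₁ ×ˢ S₂)) ∪ (S₀.biUnion fun u => (W u).biUnion fun h => {u} ×ˢ Eh h)).card : ℝ) := by
        exact_mod_cast card_le_card hsub
    _ ≤ ((E₀ ×ˢ (S₁ ×ˢ S₂)).card : ℝ) + ((S₀.biUnion fun u => (W u).biUnion fun h => ({u} : Finset ℕ) ×ˢ Eh h).card : ℝ) := by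
        exact_mod_cast card_union_le _ _
    _ ≤ (E₀.card : ℝ) * P + ∑ u ∈ S₀, ∑ h ∈ W u, ((Eh h).card : ℝ) := by
        apply add_le_add
        · rw [card_product, card_product, hP]
          push_cast
          exact le_rfl
        · refine le_trans (Nat.cast_le.2 card_biUnion_le) ?_
          rw [Nat.cast_sum]
          apply sum_le_sum
          intro u _
          refine le_trans (Nat.cast_le.2 card_biUnion_le) ?_
          rw [Nat.cast_sum]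
          apply sum_le_sum
          intro h _
          rw [card_product, card_singleton, one_mul]
    _ ≤ (S₀.card / L ^ (U + 1)) * P + ∑ _u ∈ S₀, L ^ (R + 1) * (P / M ^ (U + R + 2)) := by
        apply add_le_add (mul_le_mul_of_nonneg_right a2 hP0)
        apply sum_le_sum
        intro u _
        calc ∑ h ∈ W u, ((Eh h).card : ℝ) ≤ ∑ _h ∈ W u, P / M ^ (U + R + 2) := sum_le_sum fun h _ => b2 h
          _ = ((W u).card : ℝ) * (P / M ^ (U + R + 2)) := by rw [sum_const, nsmul_eq_mul]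
          _ ≤ _ := mul_le_mul_of_nonneg_right (hWc u) (by positivity)
    _ ≤ (S₀.card / L ^ (U + 1)) * P + ∑ _u ∈ S₀, L ^ (R + 1) * (P / L ^ (U + R + 2)) := by
        apply add_le_add le_rfl
        apply sum_le_sum
        intro u _
        apply mul_le_mul_of_nonneg_left _ (by positivity)
        exact div_le_div_of_nonneg_left hP0 (by positivity) (pow_le_pow_left₀ hLp.le hLYX _)
    _ = 2 * (S₀.card * P / L ^ (U + 1)) := by
        rw [sum_const, nsmul_eq_mul, show U + R + 2 = (R + 1) + (U + 1) by ring, pow_add L (R + 1)]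
        field_simp
        ring
    _ ≤ L * (S₀.card * P / L ^ (U + 1)) := mul_le_mul_of_nonneg_right (by linarith) (by positivity)
    _ = S₀.card * P / L ^ U := by
        rw [pow_succ]
        field_simp

end Pool.Agent.Results.MP_61a569_nt.ThreeStructuredShifts
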